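import Pool.Agent.H35.Hilb.Basic

/-!
Two polynomial maps with the same kernel (same closure of the image) have a common value, also
when restricted to nonempty principal open subsets.
-/

open MvPolynomial TensorProduct

namespace Pool.Agent.H35.Hilb

universe u v w

/-- Two fields containing the same domain embed, compatibly, in a common field. -/
theorem exists_field_amalgam {R : Type u} {A : Type v} {B : Type w} [CommRing R] [Field A]
    [Field B] (f : R →+* A) (g : R →+* B) (hf : Function.Injective f)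
    (hg : Function.Injective g) :
    ∃ (T : Type (max v w)) (_ : Field T) (i : A →+* T) (j : B →+* T),
      i.comp f = j.comp g := by
  let a₁ : Algebra R A := f.toAlgebra
  let a₂ : Algebra R B := g.toAlgebra
  have hn : Nontrivial (A ⊗[R] B) :=
    Algebra.TensorProduct.nontrivial_of_algebraMap_injective_of_isDomain R A B hf hg
  obtain ⟨M, hM⟩ := Ideal.exists_maximal (A ⊗[R] B)
  refine ⟨(A ⊗[R] B) ⧸ M, Ideal.Quotient.field M,
    (Ideal.Quotient.mk M).comp Algebra.TensorProduct.includeLeftRingHom,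
    (Ideal.Quotient.mk M).comp (Algebra.TensorProduct.includeRight (R := R) (A := A)
      (B := B)).toRingHom, ?_⟩
  ext r
  have h : (algebraMap R A r) ⊗ₜ[R] (1 : B) = (1 : A) ⊗ₜ[R] (algebraMap R B r) := by
    rw [Algebra.algebraMap_eq_smul_one, Algebra.algebraMap_eq_smul_one, TensorProduct.smul_tmul]
  exact congrArg (Ideal.Quotient.mk M) h

theorem exists_common_point {k : Type*} [Field k] [IsAlgClosed k] {σ τ₁ τ₂ : Type*}
    [Fintype σ] [Fintype τ₁] [Fintype τ₂]
    (φ₁ : σ → MvPolynomial τ₁ k) (φ₂ : σ → MvPolynomial τ₂ k)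
    (D₁ : MvPolynomial τ₁ k) (D₂ : MvPolynomial τ₂ k) (h₁ : D₁ ≠ 0) (h₂ : D₂ ≠ 0)
    (hker : ∀ f : MvPolynomial σ k, aeval φ₁ f = 0 ↔ aeval φ₂ f = 0) :
    ∃ (w₁ : τ₁ → k) (w₂ : τ₂ → k), eval w₁ D₁ ≠ 0 ∧ eval w₂ D₂ ≠ 0 ∧
      ∀ s, eval w₁ (φ₁ s) = eval w₂ (φ₂ s) := by
  classical
  let K : Ideal (MvPolynomial σ k) :=
    RingHom.ker (aeval φ₁ : MvPolynomial σ k →ₐ[k] MvPolynomial τ₁ k)
  let g₁ : (MvPolynomial σ k ⧸ K) →+* MvPolynomial τ₁ k :=
    Ideal.Quotient.lift K (aeval φ₁ : MvPolynomial σ k →ₐ[k] MvPolynomial τ₁ k).toRingHom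
      (fun a ha => ha)
  let g₂ : (MvPolynomial σ k ⧸ K) →+* MvPolynomial τ₂ k :=
    Ideal.Quotient.lift K (aeval φ₂ : MvPolynomial σ k →ₐ[k] MvPolynomial τ₂ k).toRingHom
      (fun a ha => (hker a).1 ha)
  have hg₁ : Function.Injective g₁ := by
    refine (injective_iff_map_eq_zero _).2 fun a ha => ?_
    obtain ⟨a, rfl⟩ := Ideal.Quotient.mk_surjective a
    exact Ideal.Quotient.eq_zero_iff_mem.2 ha
  have hg₂ : Function.Injective g₂ := by
    refine (injective_iff_map_eq_zero _).2 fun a ha => ?_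
    obtain ⟨a, rfl⟩ := Ideal.Quotient.mk_surjective a
    exact Ideal.Quotient.eq_zero_iff_mem.2 ((hker a).2 ha)
  obtain ⟨T, hT, i, j, hij⟩ := exists_field_amalgam
    ((algebraMap (MvPolynomial τ₁ k) (FractionRing (MvPolynomial τ₁ k))).comp g₁)
    ((algebraMap (MvPolynomial τ₂ k) (FractionRing (MvPolynomial τ₂ k))).comp g₂)
    ((IsFractionRing.injective (MvPolynomial τ₁ k) (FractionRing (MvPolynomial τ₁ k))).comp hg₁)
    ((IsFractionRing.injective (MvPolynomial τ₂ k) (FractionRing (MvPolynomial τ₂ k))).comp hg₂)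
  let u₁ : MvPolynomial τ₁ k →+* T := i.comp (algebraMap _ (FractionRing (MvPolynomial τ₁ k)))
  let u₂ : MvPolynomial τ₂ k →+* T := j.comp (algebraMap _ (FractionRing (MvPolynomial τ₂ k)))
  have hu₁ : Function.Injective u₁ :=
    i.injective.comp (IsFractionRing.injective (MvPolynomial τ₁ k) _)
  have hu₂ : Function.Injective u₂ :=
    j.injective.comp (IsFractionRing.injective (MvPolynomial τ₂ k) _)
  have hu : ∀ f : MvPolynomial σ k, u₁ (aeval φ₁ f) = u₂ (aeval φ₂ f) := fun f =>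
    RingHom.congr_fun hij (Ideal.Quotient.mk K f)
  let Ψ : MvPolynomial (τ₁ ⊕ τ₂) k →+* T :=
    eval₂Hom (u₁.comp C) (Sum.elim (fun t => u₁ (X t)) (fun t => u₂ (X t)))
  have hΨ₁ : ∀ p, Ψ (rename Sum.inl p) = u₁ p := by
    intro p
    have : Ψ.comp (rename Sum.inl : MvPolynomial τ₁ k →ₐ[k] MvPolynomial (τ₁ ⊕ τ₂) k).toRingHom
        = u₁ := by
      ext1
      · ext c
        simp [Ψ]
      · simp [Ψ]
    exact RingHom.congr_fun this p
  have hΨ₂ : ∀ p, Ψ (rename Sum.inr p) = u₂ p := by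
    intro p
    have : Ψ.comp (rename Sum.inr : MvPolynomial τ₂ k →ₐ[k] MvPolynomial (τ₁ ⊕ τ₂) k).toRingHom
        = u₂ := by
      ext1
      · ext c
        have := hu (C c)
        simp only [aeval_C, algebraMap_eq] at this
        simpa [Ψ] using this
      · simp [Ψ]
    exact RingHom.congr_fun this p
  let I : Ideal (MvPolynomial (τ₁ ⊕ τ₂) k) := RingHom.ker Ψ
  have hI : I.IsPrime := RingHom.ker_isPrime Ψ
  have hD : rename Sum.inl D₁ * rename Sum.inr D₂ ∉ I := by
    rw [RingHom.mem_ker, map_mul, hΨ₁, hΨ₂]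
    exact mul_ne_zero (by simpa using hu₁.ne h₁) (by simpa using hu₂.ne h₂)
  rw [← IsPrime.vanishingIdeal_zeroLocus (k := k) (K := k) I, mem_vanishingIdeal_iff] at hD
  push Not at hD
  obtain ⟨w, hw, hwD⟩ := hD
  refine ⟨fun t => w (Sum.inl t), fun t => w (Sum.inr t), ?_, ?_, ?_⟩
  · intro h
    apply hwD
    have : aeval w (rename Sum.inl D₁ : MvPolynomial (τ₁ ⊕ τ₂) k) = 0 := by
      rw [aeval_rename, ← h]; rfl
    rw [map_mul, this, zero_mul]
  · intro h
    apply hwD
    have : aeval w (rename Sum.inr D₂ : MvPolynomial (τ₁ ⊕ τ₂) k) = 0 := by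
      rw [aeval_rename, ← h]; rfl
    rw [map_mul, this, mul_zero]
  · intro s
    have h0 : rename Sum.inl (φ₁ s) - rename Sum.inr (φ₂ s) ∈ I := by
      rw [RingHom.mem_ker, map_sub, hΨ₁, hΨ₂, sub_eq_zero]
      simpa using hu (X s)
    have := hw _ h0
    rw [map_sub, sub_eq_zero, aeval_rename, aeval_rename] at this
    exact this

end Pool.Agent.H35.Hilb
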