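import Pool.Agent.H35.Hilb.Basic

/-!
Framed points of the Hilbert scheme are commuting matrices with a cyclic vector; the action of
`GL_d` on frames; the Galois action.
-/

open MvPolynomial

namespace Pool.Agent.H35.Hilb

universe u

section A2
variable {k : Type u} [Field k] {n d : ℕ}

theorem equivFun_X_mul (J : HilbPt k n d) (b : Frame J) (i : Fin n)
    (u : MvPolynomial (Fin n) k ⧸ J.ideal) :
    b.equivFun (Ideal.Quotient.mk J.ideal (X i) * u) =
      (matOf (coords J b) i).mulVec (b.equivFun u) := by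
  have hm : matOf (coords J b) i =
      LinearMap.toMatrix b b (LinearMap.mulLeft k (Ideal.Quotient.mk J.ideal (X i))) := by
    ext a c
    rw [LinearMap.toMatrix_apply]
    rfl
  have h2 := LinearMap.toMatrix_mulVec_repr b b
    (LinearMap.mulLeft k (Ideal.Quotient.mk J.ideal (X i))) u
  rw [hm]
  simp only [LinearMap.mulLeft_apply] at h2
  ext a
  exact (congrFun h2 a).symm

theorem vecOf_coords (J : HilbPt k n d) (b : Frame J) :
    vecOf (coords J b) = b.equivFun 1 := by
  ext a
  rfl

theorem equivFun_basis (J : HilbPt k n d) (b : Frame J) (c : Fin d) :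
    b.equivFun (b c) = Pi.single c 1 := by
  ext j
  rw [Module.Basis.equivFun_self, Pi.single_apply]
  simp only [eq_comm]

theorem coords_commuting (J : HilbPt k n d) (b : Frame J) : IsCommuting (coords J b) := by
  intro i j
  have hm : ∀ i, matOf (coords J b) i =
      LinearMap.toMatrix b b (LinearMap.mulLeft k (Ideal.Quotient.mk J.ideal (X i))) := by
    intro i
    ext a c
    rw [LinearMap.toMatrix_apply]
    rfl
  rw [hm, hm, ← LinearMap.toMatrix_comp b b b, ← LinearMap.toMatrix_comp b b b,
    ← LinearMap.mulLeft_mul, ← LinearMap.mulLeft_mul, mul_comm]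

theorem coords_cyclic (J : HilbPt k n d) (b : Frame J) : IsCyclic (coords J b) := by
  intro W h1 hst
  have key : ∀ f : MvPolynomial (Fin n) k, b.equivFun (Ideal.Quotient.mk J.ideal f) ∈ W := by
    intro f
    induction f using MvPolynomial.induction_on with
    | C a =>
      have : Ideal.Quotient.mk J.ideal (C a) = a • (1 : MvPolynomial (Fin n) k ⧸ J.ideal) := by
        rw [← map_one (Ideal.Quotient.mk J.ideal), ← Ideal.Quotient.mk_eq_mk,
          ← Ideal.Quotient.mk_eq_mk, ← Submodule.Quotient.mk_smul, MvPolynomial.smul_eq_C_mul,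
          mul_one]
      rw [this, map_smul]
      exact W.smul_mem _ (by rw [← vecOf_coords]; exact h1)
    | add p q hp hq =>
      rw [map_add, map_add]
      exact W.add_mem hp hq
    | mul_X p i hp =>
      rw [mul_comm, map_mul, equivFun_X_mul]
      exact hst i _ hp
  rw [eq_top_iff]
  intro u _
  obtain ⟨f, hf⟩ := Ideal.Quotient.mk_surjective (b.equivFun.symm u)
  have := key f
  rwa [hf, LinearEquiv.apply_symm_apply] at this

theorem exists_frame {y : Coord n d → k} (hc : IsCommuting y) (hcyc : IsCyclic y) :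
    ∃ (J : HilbPt k n d) (b : Frame J), coords J b = y := by
  classical
  have hcomm : ∀ a ∈ Set.range (matOf y), ∀ b ∈ Set.range (matOf y), a * b = b * a := by
    rintro _ ⟨i, rfl⟩ _ ⟨j, rfl⟩
    exact hc i j
  let _ : CommRing (Algebra.adjoin k (Set.range (matOf y))) := Algebra.adjoinCommRingOfComm k hcomm
  let ρ₀ : MvPolynomial (Fin n) k →ₐ[k] Algebra.adjoin k (Set.range (matOf y)) :=
    aeval fun i => ⟨matOf y i, Algebra.subset_adjoin ⟨i, rfl⟩⟩
  let ρ : MvPolynomial (Fin n) k →ₐ[k] Matrix (Fin d) (Fin d) k :=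
    (Algebra.adjoin k (Set.range (matOf y))).val.comp ρ₀
  have hρX : ∀ i, ρ (X i) = matOf y i := by
    intro i
    simp only [ρ, ρ₀, AlgHom.comp_apply, aeval_X]
    rfl
  let L : MvPolynomial (Fin n) k →ₗ[k] (Fin d → k) :=
    { toFun := fun f => (ρ f).mulVec (vecOf y)
      map_add' := fun f g => by rw [map_add, Matrix.add_mulVec]
      map_smul' := fun c f => by rw [map_smul, Matrix.smul_mulVec]; rfl }
  have hL : ∀ f, L f = (ρ f).mulVec (vecOf y) := fun f => rfl
  have hLX : ∀ i f, L (X i * f) = (matOf y i).mulVec (L f) := by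
    intro i f
    rw [hL, hL, map_mul, hρX, Matrix.mulVec_mulVec]
  have hsurj : Function.Surjective L := by
    rw [← LinearMap.range_eq_top]
    apply hcyc
    · exact ⟨1, by rw [hL, map_one, Matrix.one_mulVec]⟩
    · rintro i _ ⟨f, rfl⟩
      exact ⟨X i * f, hLX i f⟩
  let I : Ideal (MvPolynomial (Fin n) k) :=
    { carrier := {f | L f = 0}
      add_mem' := fun {f g} hf hg => by
        simp only [Set.mem_ofPred_eq] at *
        rw [map_add, hf, hg, add_zero]
      zero_mem' := map_zero L
      smul_mem' := fun g f hf => by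
        simp only [Set.mem_ofPred_eq, smul_eq_mul] at *
        rw [hL] at *
        rw [map_mul, ← Matrix.mulVec_mulVec, hf, Matrix.mulVec_zero] }
  have hI : I.restrictScalars k = LinearMap.ker L := by
    ext f
    rfl
  let e : (MvPolynomial (Fin n) k ⧸ I) ≃ₗ[k] (Fin d → k) :=
    (Submodule.Quotient.restrictScalarsEquiv k I).symm ≪≫ₗ
      (Submodule.quotEquivOfEq _ _ hI) ≪≫ₗ (LinearMap.quotKerEquivOfSurjective L hsurj)
  have he : ∀ f, e (Ideal.Quotient.mk I f) = L f := fun f => rfl
  let J : HilbPt k n d :=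
    { ideal := I
      finite := Module.Finite.equiv e.symm
      length := by rw [e.finrank_eq, Module.finrank_fin_fun] }
  let b : Frame J := Module.Basis.ofEquivFun e
  have hbe : ∀ u, b.equivFun u = e u := by
    intro u
    rw [Module.Basis.equivFun_ofEquivFun]
  refine ⟨J, b, ?_⟩
  funext s
  rcases s with ⟨i, a, c⟩ | a
  · change b.equivFun (Ideal.Quotient.mk J.ideal (X i) * b c) a = _
    obtain ⟨f, hf⟩ := Ideal.Quotient.mk_surjective (b c)
    have h1 : L f = Pi.single c 1 := by
      rw [← he, hf, ← hbe, equivFun_basis]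
    rw [← hf, ← map_mul, hbe, he, hLX, h1, Matrix.mulVec_single_one]
    rfl
  · change b.equivFun 1 a = _
    rw [hbe, ← map_one (Ideal.Quotient.mk I), he, hL, map_one, Matrix.one_mulVec]
    rfl

theorem mk_C_eq_smul (J : HilbPt k n d) (a : k) :
    Ideal.Quotient.mk J.ideal (C a) = a • (1 : MvPolynomial (Fin n) k ⧸ J.ideal) := by
  rw [← map_one (Ideal.Quotient.mk J.ideal), ← Ideal.Quotient.mk_eq_mk,
    ← Ideal.Quotient.mk_eq_mk, ← Submodule.Quotient.mk_smul, MvPolynomial.smul_eq_C_mul,
    mul_one]

theorem eq_of_coords_eq {J J' : HilbPt k n d} {b : Frame J} {b' : Frame J'}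
    (h : coords J b = coords J' b') : J = J' := by
  have key : ∀ f : MvPolynomial (Fin n) k, b.equivFun (Ideal.Quotient.mk J.ideal f) =
      b'.equivFun (Ideal.Quotient.mk J'.ideal f) := by
    intro f
    induction f using MvPolynomial.induction_on with
    | C a =>
      rw [mk_C_eq_smul, mk_C_eq_smul, map_smul, map_smul, ← vecOf_coords, ← vecOf_coords, h]
    | add p q hp hq =>
      rw [map_add, map_add, map_add, map_add, hp, hq]
    | mul_X p i hp =>
      rw [mul_comm, map_mul (Ideal.Quotient.mk J.ideal), map_mul (Ideal.Quotient.mk J'.ideal),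
        equivFun_X_mul, equivFun_X_mul, hp, h]
  ext f
  rw [← Ideal.Quotient.eq_zero_iff_mem, ← Ideal.Quotient.eq_zero_iff_mem,
    ← b.equivFun.map_eq_zero_iff, ← b'.equivFun.map_eq_zero_iff, key f]

theorem coords_eq_gact {J : HilbPt k n d} {b b' : Frame J} {g : GL (Fin d) k}
    (h : ∀ u, b'.equivFun u = (g : Matrix (Fin d) (Fin d) k).mulVec (b.equivFun u)) :
    coords J b' = gact g (coords J b) := by
  classical
  funext s
  rcases s with ⟨i, a, c⟩ | a
  · change b'.equivFun (Ideal.Quotient.mk J.ideal (X i) * b' c) a = _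
    have hc : b.equivFun (b' c) =
        ((g⁻¹ : GL (Fin d) k) : Matrix (Fin d) (Fin d) k).mulVec (Pi.single c 1) := by
      have h3 : (g : Matrix (Fin d) (Fin d) k).mulVec (b.equivFun (b' c)) = Pi.single c 1 := by
        rw [← h, equivFun_basis]
      rw [← h3, Matrix.mulVec_mulVec, ← Units.val_mul, inv_mul_cancel, Units.val_one,
        Matrix.one_mulVec]
    rw [h, equivFun_X_mul, hc, Matrix.mulVec_mulVec, Matrix.mulVec_mulVec,
      Matrix.mulVec_single_one]
    rfl
  · change b'.equivFun 1 a = _
    rw [h]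
    rfl

theorem exists_frame_gact (J : HilbPt k n d) (b : Frame J) (g : GL (Fin d) k) :
    ∃ b' : Frame J, coords J b' = gact g (coords J b) := by
  classical
  let G : (Fin d → k) ≃ₗ[k] (Fin d → k) :=
    Matrix.toLin'OfInv (M' := (g : Matrix (Fin d) (Fin d) k))
      (M := ((g⁻¹ : GL (Fin d) k) : Matrix (Fin d) (Fin d) k))
      (by rw [← Units.val_mul, inv_mul_cancel, Units.val_one])
      (by rw [← Units.val_mul, mul_inv_cancel, Units.val_one])
  refine ⟨Module.Basis.ofEquivFun (b.equivFun ≪≫ₗ G), coords_eq_gact fun u => ?_⟩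
  rw [Module.Basis.equivFun_ofEquivFun]
  simp only [LinearEquiv.trans_apply]
  simp [G, Matrix.toLin'OfInv]

theorem exists_gact (J : HilbPt k n d) (b b' : Frame J) :
    ∃ g : GL (Fin d) k, coords J b' = gact g (coords J b) := by
  refine ⟨⟨b'.toMatrix b, b.toMatrix b', Module.Basis.toMatrix_mul_toMatrix_flip _ _,
    Module.Basis.toMatrix_mul_toMatrix_flip _ _⟩, coords_eq_gact fun u => ?_⟩
  exact (b.toMatrix_mulVec_repr b' u).symm

theorem exists_subst (g : GL (Fin d) k) (f : MvPolynomial (Coord n d) k) :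
    ∃ f' : MvPolynomial (Coord n d) k, ∀ y, eval y f' = eval (gact g y) f := by
  classical
  let P : Coord n d → MvPolynomial (Coord n d) k := fun s => match s with
    | Sum.inl (i, a, c) => ∑ q, (∑ p, C ((g : Matrix (Fin d) (Fin d) k) a p) *
        X (Sum.inl (i, p, q))) * C (((g⁻¹ : GL (Fin d) k) : Matrix (Fin d) (Fin d) k) q c)
    | Sum.inr a => ∑ p, C ((g : Matrix (Fin d) (Fin d) k) a p) * X (Sum.inr p)
  refine ⟨bind₁ P f, fun y => ?_⟩
  have h1 : eval y (bind₁ P f) = eval (fun s => eval y (P s)) f := by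
    have := aeval_bind₁ (S := k) y P f
    simpa [aeval_eq_eval] using this
  rw [h1]
  congr 1
  congr 1
  funext s
  rcases s with ⟨i, a, c⟩ | a
  · simp [P, gact, Matrix.mul_apply, matOf]
  · simp [P, gact, Matrix.mulVec, dotProduct, vecOf]

end A2

/-! ### Galois action -/
section galois
variable {k : Type u} [Field k] {n d : ℕ}

/-- The semilinear ring isomorphism of the quotients induced by a field automorphism. -/
noncomputable def galEquiv (σ : k ≃+* k) (I : Ideal (MvPolynomial (Fin n) k)) :
    (MvPolynomial (Fin n) k ⧸ I) ≃+*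
      (MvPolynomial (Fin n) k ⧸ I.comap (MvPolynomial.map (σ.symm : k →+* k))) :=
  Ideal.quotientEquiv I (I.comap (MvPolynomial.map (σ.symm : k →+* k)))
    (MvPolynomial.mapEquiv (Fin n) σ) (Ideal.comap_symm (MvPolynomial.mapEquiv (Fin n) σ))

theorem galEquiv_mk (σ : k ≃+* k) (I : Ideal (MvPolynomial (Fin n) k))
    (f : MvPolynomial (Fin n) k) :
    galEquiv σ I (Ideal.Quotient.mk I f) = Ideal.Quotient.mk _ (MvPolynomial.map (σ : k →+* k) f) :=
  rfl

theorem galEquiv_smul (σ : k ≃+* k) (I : Ideal (MvPolynomial (Fin n) k))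
    (c : k) (u : MvPolynomial (Fin n) k ⧸ I) :
    galEquiv σ I (c • u) = σ c • galEquiv σ I u := by
  obtain ⟨f, rfl⟩ := Ideal.Quotient.mk_surjective u
  rw [← Ideal.Quotient.mk_eq_mk, ← Submodule.Quotient.mk_smul, Ideal.Quotient.mk_eq_mk,
    Ideal.Quotient.mk_eq_mk, galEquiv_mk, galEquiv_mk, ← Ideal.Quotient.mk_eq_mk,
    ← Ideal.Quotient.mk_eq_mk, ← Submodule.Quotient.mk_smul, MvPolynomial.smul_eq_C_mul,
    MvPolynomial.smul_eq_C_mul, map_mul, MvPolynomial.map_C]
  rfl

theorem galEquiv_symm_smul (σ : k ≃+* k) (I : Ideal (MvPolynomial (Fin n) k))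
    (c : k) (u : MvPolynomial (Fin n) k ⧸ I.comap (MvPolynomial.map (σ.symm : k →+* k))) :
    (galEquiv σ I).symm (c • u) = σ.symm c • (galEquiv σ I).symm u := by
  rw [RingEquiv.symm_apply_eq, galEquiv_smul, RingEquiv.apply_symm_apply,
    RingEquiv.apply_symm_apply]

/-- The linear coordinates on the conjugate quotient. -/
noncomputable def galCoord (σ : k ≃+* k) (I : Ideal (MvPolynomial (Fin n) k))
    (e : (MvPolynomial (Fin n) k ⧸ I) ≃ₗ[k] (Fin d → k)) :
    (MvPolynomial (Fin n) k ⧸ I.comap (MvPolynomial.map (σ.symm : k →+* k))) ≃ₗ[k]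
      (Fin d → k) where
  toFun u := fun a => σ (e ((galEquiv σ I).symm u) a)
  map_add' u v := by
    funext a
    simp only [map_add, Pi.add_apply]
  map_smul' c u := by
    funext a
    simp only [galEquiv_symm_smul, map_smul, Pi.smul_apply, smul_eq_mul, map_mul,
      RingEquiv.apply_symm_apply, RingHom.id_apply]
  invFun v := galEquiv σ I (e.symm fun a => σ.symm (v a))
  left_inv u := by
    simp
  right_inv v := by
    funext a
    simp

/-- image of a point of the Hilbert scheme under a field automorphism (acting on the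
coefficients of the polynomials in the ideal). -/
noncomputable def galois (σ : k ≃+* k) (J : HilbPt k n d) : HilbPt k n d where
  ideal := J.ideal.comap (MvPolynomial.map (σ.symm : k →+* k))
  finite := by
    have := J.finite
    exact Module.Finite.equiv
      (galCoord σ J.ideal (Module.finBasisOfFinrankEq k _ J.length).equivFun).symm
  length := by
    have := J.finite
    rw [(galCoord σ J.ideal (Module.finBasisOfFinrankEq k _ J.length).equivFun).finrank_eq,
      Module.finrank_fin_fun]

theorem mem_galois (σ : k ≃+* k) (J : HilbPt k n d) (f : MvPolynomial (Fin n) k) :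
    f ∈ (galois σ J).ideal ↔ MvPolynomial.map (σ.symm : k →+* k) f ∈ J.ideal := Iff.rfl

/-- `galEquiv` with the target written as the quotient by the conjugate ideal. -/
noncomputable def galEquiv' (σ : k ≃+* k) (J : HilbPt k n d) :
    (MvPolynomial (Fin n) k ⧸ J.ideal) ≃+* (MvPolynomial (Fin n) k ⧸ (galois σ J).ideal) :=
  galEquiv σ J.ideal

theorem galEquiv'_mk (σ : k ≃+* k) (J : HilbPt k n d) (f : MvPolynomial (Fin n) k) :
    galEquiv' σ J (Ideal.Quotient.mk J.ideal f) =
      Ideal.Quotient.mk (galois σ J).ideal (MvPolynomial.map (σ : k →+* k) f) :=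
  rfl

/-- `galCoord` with the source written as the quotient by the conjugate ideal. -/
noncomputable def galCoord' (σ : k ≃+* k) (J : HilbPt k n d) (b : Frame J) :
    (MvPolynomial (Fin n) k ⧸ (galois σ J).ideal) ≃ₗ[k] (Fin d → k) :=
  galCoord σ J.ideal b.equivFun

/-- The frame of the conjugate point. -/
noncomputable def galFrame (σ : k ≃+* k) (J : HilbPt k n d) (b : Frame J) :
    Frame (galois σ J) :=
  Module.Basis.ofEquivFun (galCoord' σ J b)

theorem galFrame_equivFun (σ : k ≃+* k) (J : HilbPt k n d) (b : Frame J)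
    (u : MvPolynomial (Fin n) k ⧸ (galois σ J).ideal) :
    (galFrame σ J b).equivFun u = fun a => σ (b.equivFun ((galEquiv' σ J).symm u) a) := by
  unfold galFrame
  rw [Module.Basis.equivFun_ofEquivFun]
  rfl

theorem exists_frame_galois (σ : k ≃+* k) (J : HilbPt k n d) (b : Frame J) :
    ∃ b' : Frame (galois σ J), coords (galois σ J) b' = fun s => σ (coords J b s) := by
  classical
  have hbc : ∀ c, (galEquiv' σ J).symm (galFrame σ J b c) = b c := by
    intro c
    apply b.equivFun.injective
    have h1 : (galFrame σ J b).equivFun (galFrame σ J b c) = Pi.single c 1 :=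
      equivFun_basis _ (galFrame σ J b) c
    rw [galFrame_equivFun] at h1
    rw [equivFun_basis]
    funext a
    have h2 := congrFun h1 a
    apply σ.injective
    refine h2.trans ?_
    by_cases hac : a = c
    · subst hac
      simp
    · simp [Pi.single_eq_of_ne hac]
  refine ⟨galFrame σ J b, ?_⟩
  funext s
  rcases s with ⟨i, a, c⟩ | a
  · change (galFrame σ J b).equivFun
        (Ideal.Quotient.mk (galois σ J).ideal (X i) * galFrame σ J b c) a =
      σ (b.equivFun (Ideal.Quotient.mk J.ideal (X i) * b c) a)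
    rw [galFrame_equivFun]
    have h3 : (galEquiv' σ J).symm
        (Ideal.Quotient.mk (galois σ J).ideal (X i) * galFrame σ J b c) =
        Ideal.Quotient.mk J.ideal (X i) * b c := by
      rw [map_mul, hbc]
      congr 1
      rw [RingEquiv.symm_apply_eq, galEquiv'_mk, map_X]
    rw [h3]
  · change (galFrame σ J b).equivFun 1 a = σ (b.equivFun 1 a)
    rw [galFrame_equivFun, map_one (galEquiv' σ J).symm]

end galois

end Pool.Agent.H35.Hilb
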