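import Pool.Agent.H35.Hilb.Tangent
import Pool.Agent.H35.Hilb.Common
import Pool.Agent.H35.Hilb.Frames

/-!
# Components of the Hilbert scheme of points from a parametrized family

A family of framed points given by polynomials, stable under `GL_d`, such that at one point of
the family every tangent vector of the scheme of framed points comes from the family, is dense in
an irreducible component.
-/

open MvPolynomial

namespace Pool.Agent.H35.Hilb

universe u

section AT
variable {k : Type u} [Field k] [IsAlgClosed k] {n d : ℕ} {τ : Type} [Fintype τ]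

/-- the set of points of the Hilbert scheme which have a frame in the family `φ` -/
def famSet (φ : Coord n d → MvPolynomial τ k) (D : MvPolynomial τ k) : Set (HilbPt k n d) :=
  {J | ∃ (b : Frame J) (w : τ → k), eval w D ≠ 0 ∧ coords J b = fun s => eval w (φ s)}

/-- The polynomial family `φ` of tuples, restricted to the open set `D ≠ 0`, is a family of
framed points stable under the change of frame, and at the point `w₀` every first order
deformation of the framed point is a derivative of the family. -/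
structure Family (φ : Coord n d → MvPolynomial τ k) (D : MvPolynomial τ k) (w₀ : τ → k) :
    Prop where
  comm : ∀ w, eval w D ≠ 0 → IsCommuting fun s => eval w (φ s)
  cyc : ∀ w, eval w D ≠ 0 → IsCyclic fun s => eval w (φ s)
  gl : ∀ w (g : GL (Fin d) k), eval w D ≠ 0 →
    ∃ w', eval w' D ≠ 0 ∧ (fun s => eval w' (φ s)) = gact g fun s => eval w (φ s)
  base : eval w₀ D ≠ 0
  tan : ∀ δ : Coord n d → k, IsCommuting (dual (fun s => eval w₀ (φ s)) δ) →
    ∃ ω : τ → k, ∀ s, aeval (dual w₀ ω) (φ s) = dual (fun s => eval w₀ (φ s)) δ s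

/-! ### Generalities -/

theorem eval_aeval' {σ : Type*} (φ : σ → MvPolynomial τ k) (w : τ → k) (f : MvPolynomial σ k) :
    eval w (aeval φ f) = eval (fun s => eval w (φ s)) f := by
  induction f using MvPolynomial.induction_on with
  | C a => simp
  | add p q hp hq => rw [map_add, map_add, map_add, hp, hq]
  | mul_X p i hp => rw [map_mul, map_mul, map_mul, hp, aeval_X, eval_X]

/-- A polynomial vanishes on the image of `{D ≠ 0}` under `φ` iff its pullback is zero. -/
theorem vanish_iff {σ : Type*} (φ : σ → MvPolynomial τ k) {D : MvPolynomial τ k} (hD : D ≠ 0)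
    (f : MvPolynomial σ k) :
    (∀ w, eval w D ≠ 0 → eval (fun s => eval w (φ s)) f = 0) ↔ aeval φ f = 0 := by
  constructor
  · intro h
    have h1 : aeval φ f * D = 0 := by
      apply MvPolynomial.funext
      intro w
      rw [map_mul, map_zero, eval_aeval']
      by_cases hw : eval w D = 0
      · rw [hw, mul_zero]
      · rw [h w hw, zero_mul]
    rcases mul_eq_zero.1 h1 with h2 | h2
    · exact h2
    · exact absurd h2 hD
  · intro h w _
    rw [← eval_aeval', h, map_zero]

theorem exists_frame_of (J : HilbPt k n d) : Nonempty (Frame J) := by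
  have := J.finite
  exact ⟨Module.finBasisOfFinrankEq k _ J.length⟩

variable {φ : Coord n d → MvPolynomial τ k} {D : MvPolynomial τ k} {w₀ : τ → k}

theorem Family.D_ne_zero (h : Family φ D w₀) : D ≠ 0 := by
  rintro rfl
  exact h.base (map_zero _)

theorem Family.frames (h : Family φ D w₀) {J : HilbPt k n d} (hJ : J ∈ famSet φ D)
    (b : Frame J) : ∃ w, eval w D ≠ 0 ∧ coords J b = fun s => eval w (φ s) := by
  obtain ⟨b', w, hw, hb'⟩ := hJ
  obtain ⟨g, hg⟩ := exists_gact J b' b
  obtain ⟨w', hw', h'⟩ := h.gl w g hw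
  exact ⟨w', hw', by rw [hg, hb', h']⟩

theorem Family.exists_point (h : Family φ D w₀) {w : τ → k} (hw : eval w D ≠ 0) :
    ∃ (J : HilbPt k n d) (b : Frame J), J ∈ famSet φ D ∧ coords J b = fun s => eval w (φ s) := by
  obtain ⟨J, b, hb⟩ := exists_frame (h.comm w hw) (h.cyc w hw)
  exact ⟨J, b, ⟨b, w, hw, hb⟩, hb⟩

/-- The ideal of the family is stable under the action of `GL_d`. -/
theorem Family.ker_subst (h : Family φ D w₀) (g : GL (Fin d) k)
    {f f' : MvPolynomial (Coord n d) k} (hf : aeval φ f = 0)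
    (hf' : ∀ y, eval y f' = eval (gact g y) f) : aeval φ f' = 0 := by
  rw [← vanish_iff φ h.D_ne_zero]
  intro w hw
  obtain ⟨w', hw', h'⟩ := h.gl w g hw
  rw [hf', ← h']
  exact (vanish_iff φ h.D_ne_zero f).2 hf w' hw'

theorem Family.all_frames (h : Family φ D w₀) {J : HilbPt k n d} (b b' : Frame J)
    (hb : ∀ f, aeval φ f = 0 → eval (coords J b) f = 0) :
    ∀ f, aeval φ f = 0 → eval (coords J b') f = 0 := by
  intro f hf
  obtain ⟨g, hg⟩ := exists_gact J b b'
  obtain ⟨f', hf'⟩ := exists_subst g f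
  rw [hg, ← hf']
  exact hb f' (h.ker_subst g hf hf')

/-- The closure of the family is defined by the kernel of the pullback. -/
theorem Family.mem_closure_iff (h : Family φ D w₀) (J : HilbPt k n d) (b : Frame J) :
    J ∈ closure (famSet φ D) ↔ ∀ f, aeval φ f = 0 → eval (coords J b) f = 0 := by
  have hZ : IsClosed {J : HilbPt k n d | ∀ b : Frame J, ∀ f, aeval φ f = 0 →
      eval (coords J b) f = 0} := by
    rw [isClosed_iff]
    refine ⟨{f | aeval φ f = 0}, fun J b => ?_⟩
    constructor
    · intro hJ f hf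
      exact hJ b f hf
    · intro hJ b'
      exact h.all_frames b b' hJ
  constructor
  · intro hJ
    have hsub : famSet φ D ⊆ {J : HilbPt k n d | ∀ b : Frame J, ∀ f, aeval φ f = 0 →
        eval (coords J b) f = 0} := by
      intro J' hJ' b' f hf
      obtain ⟨w, hw, hw'⟩ := h.frames hJ' b'
      rw [hw']
      exact (vanish_iff φ h.D_ne_zero f).2 hf w hw
    exact closure_minimal hsub hZ hJ b
  · intro hJ
    obtain ⟨F, hF⟩ := isClosed_iff.1 (isClosed_closure (s := famSet φ D))
    rw [hF J b]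
    intro f hf
    apply hJ
    rw [← vanish_iff φ h.D_ne_zero]
    intro w hw
    obtain ⟨J', b', hJ', hb'⟩ := h.exists_point hw
    rw [← hb']
    exact (hF J' b').1 (subset_closure hJ') f hf

theorem Family.isIrreducible (h : Family φ D w₀) : IsIrreducible (famSet φ D) := by
  constructor
  · obtain ⟨J, b, hJ, _⟩ := h.exists_point h.base
    exact ⟨J, hJ⟩
  · rw [isPreirreducible_iff_isClosed_union_isClosed]
    intro C₁ C₂ hC₁ hC₂ hsub
    by_contra hcon
    rw [not_or, Set.not_subset, Set.not_subset] at hcon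
    obtain ⟨⟨J₁, hJ₁, hJ₁'⟩, ⟨J₂, hJ₂, hJ₂'⟩⟩ := hcon
    obtain ⟨F₁, hF₁⟩ := isClosed_iff.1 hC₁
    obtain ⟨F₂, hF₂⟩ := isClosed_iff.1 hC₂
    obtain ⟨b₁, w₁, hw₁, hb₁⟩ := hJ₁
    obtain ⟨b₂, w₂, hw₂, hb₂⟩ := hJ₂
    rw [hF₁ J₁ b₁] at hJ₁'
    rw [hF₂ J₂ b₂] at hJ₂'
    push Not at hJ₁' hJ₂'
    obtain ⟨f₁, hf₁, hf₁'⟩ := hJ₁'
    obtain ⟨f₂, hf₂, hf₂'⟩ := hJ₂'
    rw [hb₁, ← eval_aeval'] at hf₁'
    rw [hb₂, ← eval_aeval'] at hf₂'
    have h1 : aeval φ f₁ ≠ 0 := fun h0 => hf₁' (by rw [h0, map_zero])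
    have h2 : aeval φ f₂ ≠ 0 := fun h0 => hf₂' (by rw [h0, map_zero])
    have h3 : aeval φ f₁ * aeval φ f₂ * D ≠ 0 :=
      mul_ne_zero (mul_ne_zero h1 h2) h.D_ne_zero
    apply h3
    apply MvPolynomial.funext
    intro w
    rw [map_mul, map_mul, map_zero]
    by_cases hw : eval w D = 0
    · rw [hw, mul_zero]
    · obtain ⟨J, b, hJ, hb⟩ := h.exists_point hw
      rcases hsub hJ with hJ' | hJ'
      · have := (hF₁ J b).1 hJ' f₁ hf₁
        rw [eval_aeval', ← hb, this]
        ring
      · have := (hF₂ J b).1 hJ' f₂ hf₂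
        rw [eval_aeval' φ w f₂, ← hb, this]
        ring

/-! ### The commutator ideal -/

/-- the ideal of the scheme of commuting matrices -/
noncomputable def commIdeal (k : Type u) [Field k] (n d : ℕ) :
    Ideal (MvPolynomial (Coord n d) k) :=
  Ideal.span (Set.range fun p : (Fin n × Fin n) × (Fin d × Fin d) =>
    (matOf X p.1.1 * matOf X p.1.2 - matOf X p.1.2 * matOf X p.1.1 :
      Matrix (Fin d) (Fin d) (MvPolynomial (Coord n d) k)) p.2.1 p.2.2)

theorem commIdeal_iff {R : Type*} [CommRing R] (ψ : MvPolynomial (Coord n d) k →+* R) :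
    (∀ f ∈ commIdeal k n d, ψ f = 0) ↔ IsCommuting fun s => ψ (X s) := by
  have key : ∀ i j : Fin n, ∀ a c : Fin d,
      ψ ((matOf X i * matOf X j - matOf X j * matOf X i :
        Matrix (Fin d) (Fin d) (MvPolynomial (Coord n d) k)) a c) =
      (matOf (fun s => ψ (X s)) i * matOf (fun s => ψ (X s)) j -
      matOf (fun s => ψ (X s)) j * matOf (fun s => ψ (X s)) i : Matrix (Fin d) (Fin d) R)
        a c := by
    intro i j a c
    simp only [Matrix.sub_apply, Matrix.mul_apply, map_sub, map_sum, map_mul, matOf]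
  constructor
  · intro h i j
    rw [← sub_eq_zero]
    ext a c
    rw [← key, h _ (Ideal.subset_span ⟨((i, j), (a, c)), rfl⟩)]
    rfl
  · intro h f hf
    have hle : commIdeal k n d ≤ RingHom.ker ψ := by
      rw [commIdeal, Ideal.span_le]
      rintro _ ⟨⟨⟨i, j⟩, ⟨a, c⟩⟩, rfl⟩
      rw [SetLike.mem_coe, RingHom.mem_ker]
      simp only
      rw [key, sub_eq_zero.2 (h i j)]
      rfl
    exact hle hf

theorem Family.commIdeal_le (h : Family φ D w₀) :
    ∀ f ∈ commIdeal k n d, aeval φ f = 0 := by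
  intro f hf
  rw [← vanish_iff φ h.D_ne_zero]
  intro w hw
  refine (commIdeal_iff (eval fun s => eval w (φ s))).2 ?_ f hf
  simp only [eval_X]
  exact h.comm w hw

theorem Family.exists_local (h : Family φ D w₀) (q : MvPolynomial (Coord n d) k)
    (hq : aeval φ q = 0) :
    ∃ c : MvPolynomial (Coord n d) k, eval (fun s => eval w₀ (φ s)) c ≠ 0 ∧
      c * q ∈ commIdeal k n d := by
  refine tangent_lemma (commIdeal k n d) φ w₀ h.commIdeal_le ?_ q hq
  intro δ hδ
  apply h.tan
  have := (commIdeal_iff (n := n) (d := d) (aeval (dual (fun s => eval w₀ (φ s)) δ) :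
    MvPolynomial (Coord n d) k →ₐ[k] DualNumber k).toRingHom).1 hδ
  simpa using this

theorem Family.exists_c (h : Family φ D w₀) :
    ∃ c : MvPolynomial (Coord n d) k, eval (fun s => eval w₀ (φ s)) c ≠ 0 ∧
      ∀ (J : HilbPt k n d) (b : Frame J), eval (coords J b) c ≠ 0 →
        J ∈ closure (famSet φ D) := by
  classical
  have hfg : (RingHom.ker (aeval φ : MvPolynomial (Coord n d) k →ₐ[k] MvPolynomial τ k)).FG :=
    IsNoetherian.noetherian _
  obtain ⟨S, hS⟩ := hfg
  have hS0 : ∀ q ∈ S, aeval φ q = 0 := by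
    intro q hq
    have : q ∈ RingHom.ker (aeval φ : MvPolynomial (Coord n d) k →ₐ[k] MvPolynomial τ k) := by
      rw [← hS]
      exact Ideal.subset_span hq
    exact this
  choose! c hc hc' using fun q (hq : q ∈ S) => h.exists_local q (hS0 q hq)
  refine ⟨∏ q ∈ S, c q, ?_, ?_⟩
  · rw [map_prod]
    exact Finset.prod_ne_zero_iff.2 hc
  · intro J b hJ
    rw [map_prod, Finset.prod_ne_zero_iff] at hJ
    rw [h.mem_closure_iff J b]
    intro f hf
    have hle : RingHom.ker (aeval φ : MvPolynomial (Coord n d) k →ₐ[k] MvPolynomial τ k) ≤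
        RingHom.ker (eval (coords J b)) := by
      rw [← hS, Ideal.span_le]
      intro q hq
      rw [SetLike.mem_coe, RingHom.mem_ker]
      have h1 : eval (coords J b) (c q * q) = 0 := by
        refine (commIdeal_iff (eval (coords J b))).2 ?_ _ (hc' q hq)
        simp only [eval_X]
        exact coords_commuting J b
      rw [map_mul] at h1
      exact (mul_eq_zero.1 h1).resolve_left (hJ q hq)
    exact hle hf

theorem isOpen_exists_frame (c : MvPolynomial (Coord n d) k) :
    IsOpen {J : HilbPt k n d | ∃ b : Frame J, eval (coords J b) c ≠ 0} := by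
  rw [← isClosed_compl_iff, isClosed_iff]
  refine ⟨{f | ∃ g : GL (Fin d) k, ∀ y, eval y f = eval (gact g y) c}, fun J b => ?_⟩
  simp only [Set.mem_compl_iff, Set.mem_ofPred_eq, not_exists, not_not]
  constructor
  · rintro hJ f ⟨g, hg⟩
    obtain ⟨b', hb'⟩ := exists_frame_gact J b g
    rw [hg, ← hb']
    exact hJ b'
  · intro hJ b'
    obtain ⟨g, hg⟩ := exists_gact J b b'
    obtain ⟨f', hf'⟩ := exists_subst g c
    rw [hg, ← hf']
    exact hJ f' ⟨g, hf'⟩

theorem Family.exists_open (h : Family φ D w₀) :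
    ∃ O : Set (HilbPt k n d), IsOpen O ∧ O ⊆ closure (famSet φ D) ∧
      ∀ (J : HilbPt k n d) (b : Frame J), (coords J b = fun s => eval w₀ (φ s)) → J ∈ O := by
  obtain ⟨c, hc, hc'⟩ := h.exists_c
  refine ⟨_, isOpen_exists_frame c, ?_, ?_⟩
  · rintro J ⟨b, hb⟩
    exact hc' J b hb
  · intro J b hb
    exact ⟨b, by rw [hb]; exact hc⟩

theorem subset_of_inter {Y : Type*} [TopologicalSpace Y] {Z Z' O : Set Y} (hO : IsOpen O)
    (hOZ : O ⊆ Z) (hZ : IsClosed Z) (hZ' : IsIrreducible Z') (hne : (Z' ∩ O).Nonempty) :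
    Z' ⊆ Z := by
  by_contra hcon
  rw [Set.not_subset] at hcon
  obtain ⟨x, hx, hxZ⟩ := hcon
  obtain ⟨y, _, hy1, hy2⟩ := hZ'.2 O Zᶜ hO hZ.isOpen_compl hne ⟨x, hx, hxZ⟩
  exact hy2 (hOZ hy1)

theorem Family.mem_irreducibleComponents (h : Family φ D w₀) :
    closure (famSet φ D) ∈ irreducibleComponents (HilbPt k n d) := by
  obtain ⟨O, hO, hOZ, hJO⟩ := h.exists_open
  refine ⟨h.isIrreducible.closure, fun Z' hZ' hle => ?_⟩
  obtain ⟨J, b, hJ, hb⟩ := h.exists_point h.base
  exact subset_of_inter hO hOZ isClosed_closure hZ' ⟨J, hle (subset_closure hJ), hJO J b hb⟩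

theorem Family.unique (h : Family φ D w₀)
    (J : HilbPt k n d) (b : Frame J) (hJ : coords J b = fun s => eval w₀ (φ s))
    (Z : Set (HilbPt k n d)) (hZ : Z ∈ irreducibleComponents (HilbPt k n d)) (hJZ : J ∈ Z) :
    Z = closure (famSet φ D) := by
  obtain ⟨O, hO, hOZ, hJO⟩ := h.exists_open
  have hsub : Z ⊆ closure (famSet φ D) :=
    subset_of_inter hO hOZ isClosed_closure hZ.1 ⟨J, hJZ, hJO J b hJ⟩
  exact Set.Subset.antisymm hsub (hZ.2 h.isIrreducible.closure hsub)

/-! ### Galois conjugates -/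

theorem eval_map' {σ : Type*} (s : k ≃+* k) (w : σ → k) (p : MvPolynomial σ k) :
    eval (fun t => s (w t)) (MvPolynomial.map (s : k →+* k) p) = s (eval w p) := by
  induction p using MvPolynomial.induction_on with
  | C a => simp
  | add p q hp hq => simp [hp, hq]
  | mul_X p i hp => simp [hp]

theorem map_aeval' {σ : Type*} (s : k ≃+* k) (φ : σ → MvPolynomial τ k)
    (f : MvPolynomial σ k) :
    MvPolynomial.map (s : k →+* k) (aeval φ f) =
      aeval (fun t => MvPolynomial.map (s : k →+* k) (φ t))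
        (MvPolynomial.map (s : k →+* k) f) := by
  induction f using MvPolynomial.induction_on with
  | C a => simp
  | add p q hp hq => rw [map_add, map_add, map_add, map_add, hp, hq]
  | mul_X p i hp => rw [map_mul, map_mul, map_mul, map_mul, hp, aeval_X, map_X, aeval_X]

theorem map_symm_map (s : k ≃+* k) {σ : Type*} (f : MvPolynomial σ k) :
    MvPolynomial.map (s.symm : k →+* k) (MvPolynomial.map (s : k →+* k) f) = f := by
  induction f using MvPolynomial.induction_on with
  | C a => simp
  | add p q hp hq => simp [hp, hq]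
  | mul_X p i hp => simp [hp]

theorem map_map_symm (s : k ≃+* k) {σ : Type*} (f : MvPolynomial σ k) :
    MvPolynomial.map (s : k →+* k) (MvPolynomial.map (s.symm : k →+* k) f) = f := by
  induction f using MvPolynomial.induction_on with
  | C a => simp
  | add p q hp hq => simp [hp, hq]
  | mul_X p i hp => simp [hp]

theorem galois_symm_galois (s : k ≃+* k) (J : HilbPt k n d) :
    galois s.symm (galois s J) = J := by
  apply HilbPt.ext
  ext f
  rw [mem_galois, mem_galois, RingEquiv.symm_symm, map_symm_map]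

theorem exists_frame_galois' (s : k ≃+* k) (J J' : HilbPt k n d) (hJ : galois s J' = J)
    (b : Frame J) : ∃ b' : Frame J', coords J' b' = fun t => s.symm (coords J b t) := by
  obtain ⟨b', hb'⟩ := exists_frame_galois s.symm J b
  have h1 : galois s.symm J = J' := by rw [← hJ, galois_symm_galois]
  subst h1
  exact ⟨b', hb'⟩

theorem Family.galois_ne (h : Family φ D w₀) (σ : k ≃+* k)
    (hno : ∀ w₁ w₂, eval w₁ D ≠ 0 → eval w₂ D ≠ 0 →
      (fun s => eval w₁ (φ s)) ≠ fun s => σ (eval w₂ (φ s))) :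
    galois σ '' closure (famSet φ D) ≠ closure (famSet φ D) := by
  intro heq
  have hD : D ≠ 0 := h.D_ne_zero
  have hD' : MvPolynomial.map (σ : k →+* k) D ≠ 0 := by
    intro h0
    apply hD
    rw [← map_symm_map σ D, h0, map_zero]
  have hker : ∀ f : MvPolynomial (Coord n d) k,
      aeval φ f = 0 ↔ aeval (fun s => MvPolynomial.map (σ : k →+* k) (φ s)) f = 0 := by
    intro f
    constructor
    · intro hf
      rw [← vanish_iff _ hD']
      intro w' hw'
      have hw'' : w' = fun t => σ ((fun t => σ.symm (w' t)) t) := by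
        funext t
        simp
      set w : τ → k := fun t => σ.symm (w' t) with hw
      rw [hw'', eval_map'] at hw'
      have hwD : eval w D ≠ 0 := fun h0 => hw' (by rw [h0, map_zero])
      obtain ⟨J, b, hJ, hb⟩ := h.exists_point hwD
      have hJ' : galois σ J ∈ closure (famSet φ D) := by
        rw [← heq]
        exact ⟨J, subset_closure hJ, rfl⟩
      obtain ⟨b', hb'⟩ := exists_frame_galois σ J b
      have := (h.mem_closure_iff _ b').1 hJ' f hf
      rw [hb', hb] at this
      rw [hw'']
      simp only [eval_map']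
      exact this
    · intro hf
      rw [← vanish_iff φ hD]
      intro w hw
      obtain ⟨J, b, hJ, hb⟩ := h.exists_point hw
      have hJ' : J ∈ galois σ '' closure (famSet φ D) := by
        rw [heq]
        exact subset_closure hJ
      obtain ⟨J₁, hJ₁, hJ₁'⟩ := hJ'
      obtain ⟨b₁, hb₁⟩ := exists_frame_galois' σ J J₁ hJ₁' b
      have hq : aeval φ (MvPolynomial.map (σ.symm : k →+* k) f) = 0 := by
        rw [← map_symm_map σ (aeval φ _), map_aeval', map_map_symm, hf, map_zero]
      have h1 := (h.mem_closure_iff _ b₁).1 hJ₁ _ hq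
      rw [hb₁, eval_map', hb] at h1
      exact (map_eq_zero_iff σ.symm σ.symm.injective).1 h1
  obtain ⟨w₁, w₂, hw₁, hw₂, hw⟩ := exists_common_point φ
    (fun s => MvPolynomial.map (σ : k →+* k) (φ s)) D (MvPolynomial.map (σ : k →+* k) D)
    hD hD' hker
  have hw₂' : w₂ = fun t => σ ((fun t => σ.symm (w₂ t)) t) := by
    funext t
    simp
  rw [hw₂'] at hw₂ hw
  simp only [eval_map'] at hw₂ hw
  refine hno w₁ (fun t => σ.symm (w₂ t)) hw₁ (fun h0 => hw₂ (by rw [h0, map_zero])) ?_
  funext s
  exact hw s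

end AT

end Pool.Agent.H35.Hilb
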