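import Pool.Agent.H35.Hilb.Defs

/-!
Commuting matrices with a cyclic vector, the action of `GL_d`, tuples over the dual numbers.
-/

open MvPolynomial

namespace Pool.Agent.H35.Hilb

section coords
variable {n d : ℕ}

/-- the `i`-th matrix encoded by a tuple of coordinates -/
def matOf {R : Type*} (y : Coord n d → R) (i : Fin n) : Matrix (Fin d) (Fin d) R :=
  fun a c => y (Sum.inl (i, a, c))

/-- the vector encoded by a tuple of coordinates -/
def vecOf {R : Type*} (y : Coord n d → R) : Fin d → R := fun a => y (Sum.inr a)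

/-- the matrices encoded by `y` commute -/
def IsCommuting {R : Type*} [CommRing R] (y : Coord n d → R) : Prop :=
  ∀ i j, matOf y i * matOf y j = matOf y j * matOf y i

/-- the vector encoded by `y` is cyclic for the matrices encoded by `y` -/
def IsCyclic {k : Type*} [Field k] (y : Coord n d → k) : Prop :=
  ∀ W : Submodule k (Fin d → k), vecOf y ∈ W →
    (∀ i, ∀ u ∈ W, (matOf y i).mulVec u ∈ W) → W = ⊤

/-- the action of `GL_d` on the tuples `(X₁,…,Xₙ,v)`: `(g X₁ g⁻¹,…,g Xₙ g⁻¹, g v)` -/
def gact {k : Type*} [Field k] (g : GL (Fin d) k) (y : Coord n d → k) : Coord n d → k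
  | Sum.inl (i, a, c) => ((g : Matrix (Fin d) (Fin d) k) * matOf y i *
      ((g⁻¹ : GL (Fin d) k) : Matrix (Fin d) (Fin d) k)) a c
  | Sum.inr a => (g : Matrix (Fin d) (Fin d) k).mulVec (vecOf y) a

/-- the tuple `w + ω ε` over the dual numbers -/
def dual {k : Type*} [Field k] {σ : Type*} (w ω : σ → k) : σ → DualNumber k :=
  fun t => TrivSqZeroExt.inl (w t) + TrivSqZeroExt.inr (ω t)

end coords

end Pool.Agent.H35.Hilb
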