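import Mathlib

/-!
# The Hilbert scheme of points of affine space (closed points) and its Zariski topology

`HilbPt k n d` is the set of `k`-points of `Hilb^d(𝔸ⁿ)` for an algebraically closed field `k`,
that is the set of ideals `J` of `k[x₁,…,xₙ]` with `dim k[x₁,…,xₙ]/J = d`.

A *framed point* is a point `J` together with a basis `b` of the `d`-dimensional space
`k[x]/J`; its coordinates are the entries of the `n` matrices of the multiplications by
`x₁,…,xₙ` in the basis `b`, and the `d` coordinates of the class of `1`.  The framed points are
exactly the tuples of `n` commuting `d × d` matrices together with a cyclic vector, and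
`Hilb^d(𝔸ⁿ)` is the quotient of this quasi-affine variety by the (free) action of `GL_d`
(a Zariski locally trivial `GL_d`-bundle).  So the Zariski topology of the Hilbert scheme is the
quotient topology, which is the definition used here.
-/

open MvPolynomial

namespace Pool.Agent.H35.Hilb

universe u

/-- Index set of the coordinates of a framed point: the entries of `n` square matrices of size
`d`, and the entries of a vector of length `d`. -/
abbrev Coord (n d : ℕ) := (Fin n × Fin d × Fin d) ⊕ Fin d

/-- A point of `Hilb^d(𝔸ⁿ)` over the algebraically closed field `k`: an ideal of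
`k[x₁,…,xₙ]` of colength `d`. -/
@[ext]
structure HilbPt (k : Type u) [Field k] (n d : ℕ) where
  /-- the ideal of the subscheme -/
  ideal : Ideal (MvPolynomial (Fin n) k)
  /-- the subscheme is finite over `k` -/
  finite : Module.Finite k (MvPolynomial (Fin n) k ⧸ ideal)
  /-- the subscheme has length `d` -/
  length : Module.finrank k (MvPolynomial (Fin n) k ⧸ ideal) = d

variable {k : Type u} [Field k] {n d : ℕ}

/-- A frame of a point of the Hilbert scheme: a basis of its algebra of functions. -/
abbrev Frame (J : HilbPt k n d) := Module.Basis (Fin d) k (MvPolynomial (Fin n) k ⧸ J.ideal)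

/-- The coordinates of a framed point `(J, b)`: the entries of the matrices of multiplication by
the variables in the basis `b`, and the coordinates of `1` in the basis `b`. -/
noncomputable def coords (J : HilbPt k n d) (b : Frame J) : Coord n d → k
  | Sum.inl (i, a, c) => b.repr (Ideal.Quotient.mk J.ideal (X i) * b c) a
  | Sum.inr a => b.repr 1 a

/-- A set of points of the Hilbert scheme is Zariski closed if its preimage in the space of
framed points is the zero set of a set of polynomials in the coordinates. -/
def IsZariskiClosed (C : Set (HilbPt k n d)) : Prop :=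
  ∃ F : Set (MvPolynomial (Coord n d) k), ∀ (J : HilbPt k n d) (b : Frame J),
    J ∈ C ↔ ∀ f ∈ F, eval (coords J b) f = 0

theorem isZariskiClosed_empty : IsZariskiClosed (∅ : Set (HilbPt k n d)) :=
  ⟨{1}, fun J b => by simp⟩

theorem isZariskiClosed_sInter (A : Set (Set (HilbPt k n d)))
    (hA : A ⊆ {C | IsZariskiClosed C}) : IsZariskiClosed (⋂₀ A) := by
  classical
  refine ⟨{f | ∃ C : Set (HilbPt k n d), ∃ hC : C ∈ A, f ∈ (hA hC).choose}, fun J b => ?_⟩
  constructor
  · rintro hJ f ⟨C, hC, hf⟩
    exact (((hA hC).choose_spec J b).1 (hJ C hC)) f hf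
  · intro h C hC
    exact ((hA hC).choose_spec J b).2 fun f hf => h f ⟨C, hC, hf⟩

theorem isZariskiClosed_union {C C' : Set (HilbPt k n d)} (h : IsZariskiClosed C)
    (h' : IsZariskiClosed C') : IsZariskiClosed (C ∪ C') := by
  obtain ⟨F, hF⟩ := h
  obtain ⟨F', hF'⟩ := h'
  refine ⟨{f | ∃ g ∈ F, ∃ g' ∈ F', f = g * g'}, fun J b => ?_⟩
  rw [Set.mem_union, hF J b, hF' J b]
  constructor
  · rintro (h | h) f ⟨g, hg, g', hg', rfl⟩
    · simp [h g hg]
    · simp [h g' hg']
  · intro h
    by_contra hcon
    push Not at hcon
    obtain ⟨⟨g, hg, hg0⟩, ⟨g', hg', hg'0⟩⟩ := hcon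
    have := h (g * g') ⟨g, hg, g', hg', rfl⟩
    rw [map_mul] at this
    rcases mul_eq_zero.1 this with h | h
    · exact hg0 h
    · exact hg'0 h

/-- The Zariski topology on the set of points of the Hilbert scheme. -/
instance : TopologicalSpace (HilbPt k n d) :=
  TopologicalSpace.ofClosed {C | IsZariskiClosed C} isZariskiClosed_empty
    isZariskiClosed_sInter fun _ h _ h' => isZariskiClosed_union h h'

theorem isClosed_iff {C : Set (HilbPt k n d)} : IsClosed C ↔ IsZariskiClosed C := by
  constructor
  · intro h
    have := h.isOpen_compl
    change IsZariskiClosed (Cᶜᶜ) at this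
    rwa [compl_compl] at this
  · intro h
    rw [← isOpen_compl_iff]
    change IsZariskiClosed (Cᶜᶜ)
    rwa [compl_compl]

end Pool.Agent.H35.Hilb
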