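import Mathlib

/-!
# Sparse linear forms with coefficients powers of a square root of `-1`

A `Form` is a list of pairs `(v, e)` and stands for the linear form `∑ ι^e x_v`, where `ι` is a
fixed square root of `-1`.
-/

namespace Pool.Agent.H35.Hilb

/-- a linear form `∑ ι^e x_v`, given by the list of the pairs `(v, e)` -/
abbrev Form := List (ℕ × ℕ)

/-- the value of the form `l` at the vector `x` -/
def fv {K V : Type*} [CommSemiring K] [AddCommMonoid V] [Module K V] (ι : K) (x : ℕ → V)
    (l : Form) : V :=
  (l.map fun t => ι ^ t.2 • x t.1).sum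

/-- multiplication of a form by `ι^e` -/
def shift (e : ℕ) (l : Form) : Form := l.map fun t => (t.1, t.2 + e)

/-- substitution of forms for the variables of a form -/
def subst (l : Form) (f : ℕ → Form) : Form := l.flatMap fun t => shift t.2 (f t.1)

section
variable {K V : Type*} [CommSemiring K] [AddCommMonoid V] [Module K V] (ι : K) (x : ℕ → V)

@[simp] theorem fv_nil : fv ι x [] = 0 := rfl

@[simp] theorem fv_cons (t : ℕ × ℕ) (l : Form) :
    fv ι x (t :: l) = ι ^ t.2 • x t.1 + fv ι x l := by
  simp [fv]

@[simp] theorem fv_append (l l' : Form) : fv ι x (l ++ l') = fv ι x l + fv ι x l' := by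
  simp [fv]

theorem fv_shift (e : ℕ) (l : Form) : fv ι x (shift e l) = ι ^ e • fv ι x l := by
  induction l with
  | nil => simp [shift]
  | cons t l ih =>
    have : shift e (t :: l) = (t.1, t.2 + e) :: shift e l := rfl
    rw [this, fv_cons, fv_cons, ih, smul_add, smul_smul, ← pow_add, add_comm e]

theorem fv_subst (l : Form) (f : ℕ → Form) :
    fv ι x (subst l f) = fv ι (fun v => fv ι x (f v)) l := by
  induction l with
  | nil => simp [subst]
  | cons t l ih =>
    have : subst (t :: l) f = shift t.2 (f t.1) ++ subst l f := rfl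
    rw [this, fv_append, fv_cons, ih, fv_shift]

theorem fv_congr {x y : ℕ → V} (l : Form) (h : ∀ t ∈ l, x t.1 = y t.1) :
    fv ι x l = fv ι y l := by
  induction l with
  | nil => rfl
  | cons t l ih =>
    rw [fv_cons, fv_cons, h t (by simp), ih fun s hs => h s (by simp [hs])]

theorem fv_zero (l : Form) : fv ι (fun _ => (0 : V)) l = 0 := by
  induction l with
  | nil => rfl
  | cons t l ih => rw [fv_cons, ih]; simp

theorem fv_add (x y : ℕ → V) (l : Form) :
    fv ι (fun v => x v + y v) l = fv ι x l + fv ι y l := by
  induction l with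
  | nil => simp
  | cons t l ih => rw [fv_cons, fv_cons, fv_cons, ih, smul_add]; abel

theorem fv_smul (c : K) (x : ℕ → V) (l : Form) :
    fv ι (fun v => c • x v) l = c • fv ι x l := by
  induction l with
  | nil => simp
  | cons t l ih => rw [fv_cons, fv_cons, ih, smul_add, smul_comm]

theorem map_fv {W : Type*} [AddCommMonoid W] [Module K W] (f : V →ₗ[K] W) (l : Form) :
    f (fv ι x l) = fv ι (fun v => f (x v)) l := by
  induction l with
  | nil => simp
  | cons t l ih => rw [fv_cons, fv_cons, map_add, map_smul, ih]

end

theorem map_fv_ringHom {K L : Type*} [CommSemiring K] [CommSemiring L] (f : K →+* L) (ι : K)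
    (x : ℕ → K) (l : Form) : f (fv ι x l) = fv (f ι) (fun v => f (x v)) l := by
  induction l with
  | nil => simp
  | cons t l ih => simp [fv_cons, ih]

/-- remove the first entry `(v, e')` with `e' ≡ e + 2 mod 4` -/
def eraseOpp (v e : ℕ) : Form → Option Form
  | [] => none
  | t :: l =>
    bif t.1 == v && (t.2 + 2) % 4 == e % 4 then some l
    else match eraseOpp v e l with
      | none => none
      | some l' => some (t :: l')

/-- check that the entries of the form cancel in pairs -/
def cancel : ℕ → Form → Bool
  | _, [] => true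
  | 0, _ :: _ => false
  | f + 1, t :: l =>
    match eraseOpp t.1 t.2 l with
    | none => false
    | some l' => cancel f l'

theorem pow_add_two_eq {K : Type*} [CommRing K] {ι : K} (hι : ι ^ 2 = -1) {a b : ℕ}
    (h : (a + 2) % 4 = b % 4) : ι ^ a = - ι ^ b := by
  have h4 : ι ^ 4 = 1 := by
    calc ι ^ 4 = (ι ^ 2) ^ 2 := by ring
      _ = 1 := by rw [hι]; ring
  have hm : ∀ m : ℕ, ι ^ m = ι ^ (m % 4) := fun m => by
    conv_lhs => rw [← Nat.div_add_mod m 4, pow_add, pow_mul, h4, one_pow, one_mul]
  rw [hm b, ← h, ← hm (a + 2), pow_add, hι]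
  ring

theorem fv_of_eraseOpp {K V : Type*} [CommRing K] [AddCommGroup V] [Module K V] {ι : K}
    (hι : ι ^ 2 = -1) (x : ℕ → V) (v e : ℕ) :
    ∀ (l l' : Form), eraseOpp v e l = some l' → ι ^ e • x v + fv ι x l = fv ι x l' := by
  intro l
  induction l with
  | nil => intro l' h; simp [eraseOpp] at h
  | cons t l ih =>
    intro l' h
    unfold eraseOpp at h
    by_cases hc : (t.1 == v && (t.2 + 2) % 4 == e % 4) = true
    · rw [hc] at h
      simp only [cond_true, Option.some.injEq] at h
      subst h
      simp only [Bool.and_eq_true, beq_iff_eq] at hc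
      rw [fv_cons, pow_add_two_eq hι hc.2, hc.1]
      simp
    · rw [Bool.not_eq_true] at hc
      rw [hc] at h
      simp only [cond_false] at h
      cases hl : eraseOpp v e l with
      | none => rw [hl] at h; simp at h
      | some l'' =>
        rw [hl] at h
        simp only [Option.some.injEq] at h
        subst h
        rw [fv_cons, fv_cons, ← ih l'' hl]
        abel

theorem fv_of_cancel {K V : Type*} [CommRing K] [AddCommGroup V] [Module K V] {ι : K}
    (hι : ι ^ 2 = -1) (x : ℕ → V) : ∀ (f : ℕ) (l : Form), cancel f l = true → fv ι x l = 0 := by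
  intro f
  induction f with
  | zero =>
    intro l h
    cases l with
    | nil => rfl
    | cons t l => simp [cancel] at h
  | succ f ih =>
    intro l h
    cases l with
    | nil => rfl
    | cons t l =>
      unfold cancel at h
      cases hl : eraseOpp t.1 t.2 l with
      | none => rw [hl] at h; simp at h
      | some l' =>
        rw [hl] at h
        rw [fv_cons, fv_of_eraseOpp hι x t.1 t.2 l l' hl]
        exact ih l' h

end Pool.Agent.H35.Hilb
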