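import Pool.Agent.H35.Hilb.LUDefs

/-!
# Soundness of the sparse triangular decomposition checker
-/

namespace Pool.Agent.H35.Hilb

section modp
variable {p : ℕ} [Fact p.Prime]

/-- value of a form modulo `p` -/
def mv (x : ℕ → ZMod p) (l : MForm) : ZMod p := (l.map fun t => (t.2 : ZMod p) * x t.1).sum

@[simp] theorem mv_nil (x : ℕ → ZMod p) : mv x [] = 0 := rfl

@[simp] theorem mv_cons (x : ℕ → ZMod p) (t : ℕ × ℕ) (l : MForm) :
    mv x (t :: l) = (t.2 : ZMod p) * x t.1 + mv x l := by simp [mv]

theorem mv_addTerm (x : ℕ → ZMod p) (v c : ℕ) (l : MForm) :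
    mv x (addTerm p v c l) = (c : ZMod p) * x v + mv x l := by
  induction l with
  | nil => simp [addTerm]
  | cons t l ih =>
    unfold addTerm
    by_cases h1 : v.blt t.1 = true
    · rw [h1]; simp
    · rw [Bool.not_eq_true] at h1
      rw [h1]
      simp only [cond_false]
      by_cases h2 : (v == t.1) = true
      · rw [h2]
        simp only [cond_true, mv_cons, ZMod.natCast_mod, Nat.cast_add]
        rw [beq_iff_eq] at h2
        rw [h2]
        ring
      · rw [Bool.not_eq_true] at h2
        rw [h2]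
        simp only [cond_false, mv_cons]
        rw [ih]
        ring

theorem mv_addForm (x : ℕ → ZMod p) (m : ℕ) (l acc : MForm) :
    mv x (addForm p m l acc) = (m : ZMod p) * mv x l + mv x acc := by
  induction l generalizing acc with
  | nil => simp [addForm]
  | cons t l ih =>
    unfold addForm
    rw [ih, mv_addTerm, mv_cons, ZMod.natCast_mod, Nat.cast_mul]
    ring

theorem mv_addRow (x : ℕ → ZMod p) (r : ZMod p) (pw : List ℕ) (pos : Tr ℕ)
    (hpw : ∀ e, (rpow pw e : ZMod p) = r ^ e) (l : Form) (acc : MForm) :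
    mv x (addRow p pw pos l acc) = fv r (fun v => x (pos.get 0 v)) l + mv x acc := by
  induction l generalizing acc with
  | nil => simp [addRow]
  | cons t l ih =>
    unfold addRow
    rw [ih, mv_addTerm, fv_cons, hpw, smul_eq_mul]
    ring

theorem mv_addComb (x : ℕ → ZMod p) (steps : Tr Step) (l : List (ℕ × ℕ)) (acc : MForm)
    (hl : ∀ t ∈ l, t.2 < p) (h0 : ∀ t ∈ l, mv x (steps.get ⟨0, [], []⟩ t.1).U = 0) :
    mv x (addComb p steps l acc) = mv x acc := by
  induction l generalizing acc with
  | nil => simp [addComb]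
  | cons t l ih =>
    unfold addComb
    rw [ih _ (fun s hs => hl s (by simp [hs])) (fun s hs => h0 s (by simp [hs])), mv_addForm,
      h0 t (by simp)]
    simp

theorem mv_eq_zero (x : ℕ → ZMod p) (l : MForm) (hl : ∀ t ∈ l, t.2 % p = 0) : mv x l = 0 := by
  induction l with
  | nil => rfl
  | cons t l ih =>
    have h : (t.2 : ZMod p) = 0 := by
      rw [ZMod.natCast_eq_zero_iff]
      exact Nat.dvd_of_mod_eq_zero (hl t (by simp))
    rw [mv_cons, h, ih fun s hs => hl s (by simp [hs])]
    simp

theorem rpow_eq {pw : List ℕ} {r : ZMod p}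
    (h : ∀ e < pw.length, (pw.getD e 0 : ZMod p) = r ^ e) (hr : r ^ pw.length = 1)
    (hlen : 0 < pw.length) (e : ℕ) : (rpow pw e : ZMod p) = r ^ e := by
  unfold rpow
  rw [h _ (Nat.mod_lt _ hlen)]
  conv_rhs => rw [← Nat.div_add_mod e pw.length, pow_add, pow_mul, hr, one_pow, one_mul]

theorem vanish_of_checkLU {pw : List ℕ} {K : ℕ} {rows : ℕ → Form} {steps : Tr Step}
    {pos piv : Tr ℕ} (h : checkLU p pw K rows steps pos piv = true) {r : ZMod p}
    (hpw : ∀ e, (rpow pw e : ZMod p) = r ^ e) (x : ℕ → ZMod p)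
    (hx : ∀ i < K, fv r (fun v => x (pos.get 0 v)) (rows (steps.get ⟨0, [], []⟩ i).id) = 0) :
    ∀ i < K, x i = 0 := by
  have hst : ∀ i < K, checkStep p pw K rows steps pos piv i = true := by
    intro i hi
    have := (List.all_eq_true.1 h) i (List.mem_range.2 hi)
    rw [Bool.and_eq_true] at this
    exact this.1
  have hU : ∀ i, i < K → mv x (steps.get ⟨0, [], []⟩ i).U = 0 := by
    intro i
    induction i using Nat.strong_induction_on with
    | _ i ih =>
      intro hi
      have hs := hst i hi
      unfold checkStep at hs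
      simp only [Bool.and_eq_true, List.all_eq_true] at hs
      obtain ⟨⟨⟨h1, h2⟩, h3⟩, h4⟩ := hs
      have h5 := mv_eq_zero x _ (fun t ht => by simpa using h4 t ht)
      rw [mv_addComb x steps _ _ (fun t ht => by
          have := h2 t ht
          have h6 : Nat.ble (t.2 + 1) p = true := this.2
          exact Nat.le_of_ble_eq_true h6)
        (fun t ht => by
          have := h2 t ht
          have h6 : Nat.ble (t.1 + 1) i = true := this.1
          have h7 : t.1 < i := Nat.le_of_ble_eq_true h6
          exact ih t.1 h7 (lt_trans h7 hi)), mv_addForm, mv_addRow x r pw pos hpw, hx i hi] at h5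
      have hp1 : ((p - 1 : ℕ) : ZMod p) = -1 := by
        rw [Nat.cast_sub (Fact.out : p.Prime).one_lt.le]
        simp
      rw [hp1] at h5
      simpa using h5
  have key : ∀ m i, i < K → K ≤ i + m → x i = 0 := by
    intro m
    induction m with
    | zero => intro i hi hm; omega
    | succ m ih =>
      intro i hi hm
      have hs := hst i hi
      unfold checkStep at hs
      simp only [Bool.and_eq_true, List.all_eq_true] at hs
      obtain ⟨⟨⟨h1, h2⟩, h3⟩, h4⟩ := hs
      have h0 := hU i hi
      cases hc : (steps.get ⟨0, [], []⟩ i).U with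
      | nil => rw [hc] at h3; simp at h3
      | cons u rest =>
        rw [hc] at h3 h0
        simp only [Bool.and_eq_true, List.all_eq_true, beq_iff_eq, Bool.not_eq_true',
          beq_eq_false_iff_ne, ne_eq] at h3
        obtain ⟨⟨h5, h6⟩, h7⟩ := h3
        have hrest : mv x rest = 0 := by
          have : ∀ (l : MForm), (∀ t ∈ l, i < t.1 ∧ t.1 < K) → mv x l = 0 := by
            intro l
            induction l with
            | nil => intro _; rfl
            | cons t l ihl =>
              intro hl
              rw [mv_cons, ih t.1 (hl t (by simp)).2 (by have := (hl t (by simp)).1; omega),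
                ihl fun s hs => hl s (by simp [hs])]
              simp
          apply this
          intro t ht
          have := h7 t ht
          have h8 : Nat.ble (i + 1) t.1 = true := this.1
          have h9 : Nat.ble (t.1 + 1) K = true := this.2
          exact ⟨Nat.le_of_ble_eq_true h8, Nat.le_of_ble_eq_true h9⟩
        rw [mv_cons, hrest, add_zero, h5] at h0
        rcases mul_eq_zero.1 h0 with h8 | h8
        · exfalso
          rw [ZMod.natCast_eq_zero_iff] at h8
          exact h6 (Nat.mod_eq_zero_of_dvd h8)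
        · exact h8
  intro i hi
  exact key K i hi (by omega)

end modp

section field
open Polynomial

variable {p : ℕ} [Fact p.Prime] {pw : List ℕ} {K : ℕ} {rows : ℕ → Form} {steps : Tr Step}
  {pos piv : Tr ℕ}

/-- the matrix of the system over `ℤ[X]` -/
noncomputable def luMat (K : ℕ) (rows : ℕ → Form) (steps : Tr Step) (pos : Tr ℕ) :
    Matrix (Fin K) (Fin K) ℤ[X] :=
  fun i j => fv (X : ℤ[X]) (fun v => if pos.get 0 v = j then 1 else 0)
    (rows (steps.get ⟨0, [], []⟩ i).id)

theorem luMat_map {L : Type*} [CommRing L] (f : ℤ[X] →+* L) (x : Fin K → L)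
    (hK : ∀ i < K, ∀ t ∈ rows (steps.get ⟨0, [], []⟩ i).id, pos.get 0 t.1 < K) (i : Fin K) :
    ((luMat K rows steps pos).map f).mulVec x i =
      fv (f X) (fun v => if h : pos.get 0 v < K then x ⟨pos.get 0 v, h⟩ else 0)
        (rows (steps.get ⟨0, [], []⟩ i).id) := by
  have h1 : ((luMat K rows steps pos).map f).mulVec x i =
      ∑ j, x j • fv (f X) (fun v => if pos.get 0 v = j then (1 : L) else 0)
        (rows (steps.get ⟨0, [], []⟩ i).id) := by
    simp only [Matrix.mulVec, dotProduct, Matrix.map_apply, luMat, smul_eq_mul]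
    refine Finset.sum_congr rfl fun j _ => ?_
    rw [map_fv_ringHom, mul_comm]
    congr 1
    apply fv_congr
    intro t _
    split_ifs <;> simp
  rw [h1]
  have h2 : ∀ (l : Form), (∀ t ∈ l, pos.get 0 t.1 < K) →
      ∑ j, x j • fv (f X) (fun v => if pos.get 0 v = j then (1 : L) else 0) l =
      fv (f X) (fun v => if h : pos.get 0 v < K then x ⟨pos.get 0 v, h⟩ else 0) l := by
    intro l
    induction l with
    | nil => intro _; simp
    | cons t l ih =>
      intro hl
      rw [fv_cons, ← ih fun s hs => hl s (by simp [hs])]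
      simp only [fv_cons, smul_add, Finset.sum_add_distrib]
      congr 1
      have ht := hl t (by simp)
      rw [dif_pos ht, Finset.sum_eq_single ⟨pos.get 0 t.1, ht⟩]
      · simp [mul_comm]
      · intro j _ hj
        have : pos.get 0 t.1 ≠ j := fun h => hj (by ext; exact h.symm)
        simp [this]
      · simp
  exact h2 _ (hK i i.2)

theorem luMat_det_ne_zero (h : checkLU p pw K rows steps pos piv = true) {r : ZMod p}
    (hpw : ∀ e, (rpow pw e : ZMod p) = r ^ e)
    (hK : ∀ i < K, ∀ t ∈ rows (steps.get ⟨0, [], []⟩ i).id, pos.get 0 t.1 < K) :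
    Polynomial.aeval r (luMat K rows steps pos).det ≠ 0 := by
  have h1 : Polynomial.aeval r (luMat K rows steps pos).det =
      ((luMat K rows steps pos).map (Polynomial.aeval r : ℤ[X] →ₐ[ℤ] ZMod p).toRingHom).det := by
    rw [← RingHom.mapMatrix_apply, ← RingHom.map_det]
    rfl
  rw [h1]
  have hinj : Function.Injective
      ((luMat K rows steps pos).map
        (Polynomial.aeval r : ℤ[X] →ₐ[ℤ] ZMod p).toRingHom).mulVec := by
    have : ∀ x : Fin K → ZMod p, ((luMat K rows steps pos).map
        (Polynomial.aeval r : ℤ[X] →ₐ[ℤ] ZMod p).toRingHom).mulVec x = 0 → x = 0 := by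
      intro x hx
      have h2 := vanish_of_checkLU h hpw (fun j => if hj : j < K then x ⟨j, hj⟩ else 0) (by
        intro i hi
        have h3 := congrFun hx ⟨i, hi⟩
        rw [luMat_map _ _ hK] at h3
        simpa using h3)
      ext j
      have := h2 j j.2
      simpa using this
    intro x y hxy
    have h3 := this (x - y) (by
      rw [Matrix.mulVec_sub]
      exact sub_eq_zero.2 hxy)
    exact sub_eq_zero.1 h3
  intro hdet
  obtain ⟨v, hv, hv0⟩ := Matrix.exists_mulVec_eq_zero_iff.2 hdet
  exact hv (hinj (by rw [hv0, Matrix.mulVec_zero]))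

theorem checkLU_pos (h : checkLU p pw K rows steps pos piv = true) :
    ∀ i < K, ∀ t ∈ rows (steps.get ⟨0, [], []⟩ i).id,
      pos.get 0 t.1 < K ∧ piv.get 0 (pos.get 0 t.1) = t.1 := by
  intro i hi t ht
  have := (List.all_eq_true.1 h) i (List.mem_range.2 hi)
  rw [Bool.and_eq_true] at this
  have hs := this.1
  unfold checkStep at hs
  simp only [Bool.and_eq_true, List.all_eq_true] at hs
  obtain ⟨⟨⟨h1, h2⟩, h3⟩, h4⟩ := hs
  have h5 := h1 t ht
  have h6 : Nat.ble (pos.get 0 t.1 + 1) K = true := h5.1
  exact ⟨Nat.le_of_ble_eq_true h6, by simpa using h5.2⟩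

theorem checkLU_inv (h : checkLU p pw K rows steps pos piv = true) :
    ∀ i < K, pos.get 0 (piv.get 0 i) = i := by
  intro i hi
  have := (List.all_eq_true.1 h) i (List.mem_range.2 hi)
  rw [Bool.and_eq_true] at this
  simpa using this.2

variable {k : Type*} [Field k] {ζ : k}

theorem luMat_det_ne_zero' (h : checkLU p pw K rows steps pos piv = true) {r : ZMod p}
    (hpw : ∀ e, (rpow pw e : ZMod p) = r ^ e)
    (hsp : ∀ P : ℤ[X], Polynomial.aeval ζ P = 0 → Polynomial.aeval r P = 0) :
    ((luMat K rows steps pos).map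
      (Polynomial.aeval ζ : ℤ[X] →ₐ[ℤ] k).toRingHom).det ≠ 0 := by
  intro h0
  apply luMat_det_ne_zero h hpw fun i hi t ht => (checkLU_pos h i hi t ht).1
  apply hsp
  rw [← h0, ← RingHom.mapMatrix_apply, ← RingHom.map_det]
  rfl

/-- If the check succeeds, the homogeneous square system has only the trivial solution over every
field `k`, where `ζ ∈ k` specialises to `r` modulo `p`. -/
theorem injective_of_checkLU (h : checkLU p pw K rows steps pos piv = true) {r : ZMod p}
    (hpw : ∀ e, (rpow pw e : ZMod p) = r ^ e)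
    (hsp : ∀ P : ℤ[X], Polynomial.aeval ζ P = 0 → Polynomial.aeval r P = 0) (x : ℕ → k)
    (hx : ∀ i < K, fv ζ x (rows (steps.get ⟨0, [], []⟩ i).id) = 0) :
    ∀ i < K, x (piv.get 0 i) = 0 := by
  have hdet := luMat_det_ne_zero' h hpw hsp
  have hpos := checkLU_pos h
  have h1 : ((luMat K rows steps pos).map
      (Polynomial.aeval ζ : ℤ[X] →ₐ[ℤ] k).toRingHom).mulVec
        (fun j : Fin K => x (piv.get 0 j)) = 0 := by
    funext i
    rw [luMat_map _ _ fun i hi t ht => (hpos i hi t ht).1]
    have h2 : (Polynomial.aeval ζ : ℤ[X] →ₐ[ℤ] k).toRingHom X = ζ := by simp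
    rw [h2, Pi.zero_apply, ← hx i i.2]
    apply fv_congr
    intro t ht
    obtain ⟨h3, h4⟩ := hpos i i.2 t ht
    rw [dif_pos h3]
    exact congrArg x h4
  intro i hi
  by_contra hne
  apply hdet
  apply Matrix.exists_mulVec_eq_zero_iff.1
  refine ⟨_, fun h0 => hne ?_, h1⟩
  exact congrFun h0 ⟨i, hi⟩

/-- If the check succeeds, the square system is solvable for every right hand side. -/
theorem surjective_of_checkLU (h : checkLU p pw K rows steps pos piv = true) {r : ZMod p}
    (hpw : ∀ e, (rpow pw e : ZMod p) = r ^ e)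
    (hsp : ∀ P : ℤ[X], Polynomial.aeval ζ P = 0 → Polynomial.aeval r P = 0) (b : ℕ → k) :
    ∃ x : ℕ → k, (∀ i < K, fv ζ x (rows (steps.get ⟨0, [], []⟩ i).id) = b i) ∧
      ∀ v, (∀ i < K, piv.get 0 i ≠ v) → x v = 0 := by
  have hdet := luMat_det_ne_zero' h hpw hsp
  have hpos := checkLU_pos h
  have hinv := checkLU_inv h
  set A := (luMat K rows steps pos).map (Polynomial.aeval ζ : ℤ[X] →ₐ[ℤ] k).toRingHom with hA
  obtain ⟨x', hx'⟩ : ∃ x' : Fin K → k, A.mulVec x' = fun i : Fin K => b i := by
    refine ⟨A⁻¹.mulVec fun i : Fin K => b i, ?_⟩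
    rw [Matrix.mulVec_mulVec, Matrix.mul_nonsing_inv _ (isUnit_iff_ne_zero.2 hdet),
      Matrix.one_mulVec]
  classical
  refine ⟨fun v => if hv : pos.get 0 v < K ∧ piv.get 0 (pos.get 0 v) = v then
    x' ⟨pos.get 0 v, hv.1⟩ else 0, ?_, ?_⟩
  · intro i hi
    have h1 := congrFun hx' ⟨i, hi⟩
    rw [hA, luMat_map _ _ fun i hi t ht => (hpos i hi t ht).1] at h1
    have h2 : (Polynomial.aeval ζ : ℤ[X] →ₐ[ℤ] k).toRingHom X = ζ := by simp
    rw [h2] at h1
    change _ = b i at h1
    rw [← h1]
    apply fv_congr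
    intro t ht
    have h3 := hpos i hi t ht
    rw [dif_pos h3, dif_pos h3.1]
  · intro v hv
    exact dif_neg fun h12 => hv _ h12.1 h12.2

end field

/-- a root in a field of characteristic zero of a quadratic polynomial of negative discriminant
specialises to any root modulo `p` of this polynomial -/
theorem specialize_quadratic {R : Type*} [CommRing R] {k : Type*} [Field k] [CharZero k] {ζ : k}
    (u v : ℤ) (huv : u ^ 2 < 4 * v) (hζ : ζ ^ 2 + u * ζ + v = 0) {r : R}
    (hr : r ^ 2 + u * r + v = 0) (P : Polynomial ℤ)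
    (hP : Polynomial.aeval ζ P = 0) : Polynomial.aeval r P = 0 := by
  set Φ : Polynomial ℤ := Polynomial.X ^ 2 + Polynomial.C u * Polynomial.X + Polynomial.C v
    with hΦ
  have hdeg : Φ.natDegree = 2 := by rw [hΦ]; compute_degree!
  have hmon : Φ.Monic := by rw [hΦ]; monicity!
  have hdecomp := Polynomial.modByMonic_add_div P Φ
  obtain ⟨α, β, hR⟩ : ∃ α β : ℤ, P %ₘ Φ = Polynomial.C α * Polynomial.X + Polynomial.C β := by
    apply Polynomial.exists_eq_X_add_C_of_natDegree_le_one
    have := Polynomial.natDegree_modByMonic_lt P hmon (by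
      intro h
      have := congrArg Polynomial.natDegree h
      rw [hdeg] at this
      simp at this)
    omega
  have hζΦ : Polynomial.aeval ζ Φ = 0 := by
    rw [hΦ]
    simpa using hζ
  have hrΦ : Polynomial.aeval r Φ = 0 := by
    rw [hΦ]
    simpa using hr
  have h1 : (α : k) * ζ + β = 0 := by
    have h2 := congrArg (Polynomial.aeval ζ) hdecomp
    rw [hR, map_add, map_mul, hζΦ, hP] at h2
    simpa using h2
  have h3 : ((β ^ 2 - u * α * β + v * α ^ 2 : ℤ) : k) = 0 := by
    push_cast
    have : (β : k) = - (α * ζ) := by linear_combination h1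
    rw [this]
    linear_combination (α : k) ^ 2 * hζ
  have h4 : β ^ 2 - u * α * β + v * α ^ 2 = 0 := by exact_mod_cast h3
  have h5 : (2 * β - u * α) ^ 2 + (4 * v - u ^ 2) * α ^ 2 = 0 := by linear_combination 4 * h4
  have hα : α = 0 := by
    by_contra hne
    have h6 : 0 < α ^ 2 := by positivity
    nlinarith [sq_nonneg (2 * β - u * α), mul_pos (sub_pos.2 huv) h6]
  have hβ : β = 0 := by
    rw [hα] at h5
    have : β ^ 2 = 0 := by linarith
    exact pow_eq_zero_iff (two_ne_zero) |>.1 this
  rw [← hdecomp, map_add, map_mul, hrΦ, hR, hα, hβ]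
  simp

end Pool.Agent.H35.Hilb
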