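import Pool.Agent.H35.Hilb.Forms

/-!
# A checker for the invertibility of a sparse square system over `ℤ[ζ]`, `ζ` a root of unity

The system has `K` rows `rows (id i)`, which are forms (see `Forms.lean`) in the variables
`piv j`, `j < K`.  The certificate is a triangular decomposition modulo a prime `p`.
-/

namespace Pool.Agent.H35.Hilb

/-- binary trees used as arrays: the root has index `0`, the odd indices are in the left subtree,
the even ones in the right subtree. -/
inductive Tr (α : Type) where
  | nil : Tr α
  | node : α → Tr α → Tr α → Tr α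

/-- lookup -/
def Tr.get {α : Type} (dflt : α) : Tr α → ℕ → α
  | .nil, _ => dflt
  | .node a l r, n =>
    match n with
    | 0 => a
    | m + 1 => bif m % 2 == 0 then l.get dflt (m / 2) else r.get dflt (m / 2)

/-- linear forms modulo `p`: lists of pairs (index of the variable, coefficient) -/
abbrev MForm := List (ℕ × ℕ)

/-- add `c * x_v` to a sorted form modulo `p` -/
def addTerm (p v c : ℕ) : MForm → MForm
  | [] => [(v, c)]
  | t :: l =>
    bif v.blt t.1 then (v, c) :: t :: l
    else bif v == t.1 then (v, (t.2 + c) % p) :: l
    else t :: addTerm p v c l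

/-- add a form (multiplied by the constant `m`) to a sorted form modulo `p` -/
def addForm (p m : ℕ) : MForm → MForm → MForm
  | [], acc => acc
  | t :: l, acc => addForm p m l (addTerm p t.1 (m * t.2 % p) acc)

/-- the reduction modulo `p` of `ζ ^ e`; `pw` is the list of the residues of the powers of `ζ`. -/
def rpow (pw : List ℕ) (e : ℕ) : ℕ := pw.getD (e % pw.length) 0

/-- add the reduction modulo `p` of a form, with the variables renumbered by `pos` -/
def addRow (p : ℕ) (pw : List ℕ) (pos : Tr ℕ) : Form → MForm → MForm
  | [], acc => acc
  | t :: l, acc => addRow p pw pos l (addTerm p (pos.get 0 t.1) (rpow pw t.2) acc)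

/-- one step of the certificate: the identifier of the row, the list of the pairs `(k, c)` and the
reduced row `U_i`, such that `row = U_i + ∑ c U_k`. -/
structure Step where
  /-- identifier of the row -/
  id : ℕ
  /-- multipliers -/
  L : List (ℕ × ℕ)
  /-- reduced row -/
  U : MForm

/-- add `∑ (p - c) U_k` -/
def addComb (p : ℕ) (steps : Tr Step) : List (ℕ × ℕ) → MForm → MForm
  | [], acc => acc
  | t :: l, acc => addComb p steps l
      (addForm p (p - t.2) (steps.get ⟨0, [], []⟩ t.1).U acc)

/-- check of the step number `i` out of `K` -/
def checkStep (p : ℕ) (pw : List ℕ) (K : ℕ) (rows : ℕ → Form) (steps : Tr Step) (pos piv : Tr ℕ) (i : ℕ) : Bool :=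
  let s := steps.get ⟨0, [], []⟩ i
  (rows s.id).all (fun t => (pos.get 0 t.1).blt K && piv.get 0 (pos.get 0 t.1) == t.1) &&
  s.L.all (fun t => t.1.blt i && t.2.blt p) &&
  (match s.U with
    | [] => false
    | u :: rest => u.1 == i && !(u.2 % p == 0) && rest.all (fun t => i.blt t.1 && t.1.blt K)) &&
  (addComb p steps s.L (addForm p (p - 1) s.U (addRow p pw pos (rows s.id) []))).all
    (fun t => t.2 % p == 0)

/-- check of all the steps, and that `piv` is injective on indices `< K`, with inverse `pos` -/
def checkLU (p : ℕ) (pw : List ℕ) (K : ℕ) (rows : ℕ → Form) (steps : Tr Step) (pos piv : Tr ℕ) : Bool :=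
  (List.range K).all fun i =>
    checkStep p pw K rows steps pos piv i && pos.get 0 (piv.get 0 i) == i

end Pool.Agent.H35.Hilb
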