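import Pool.Agent.H35.Hilb.Basic

/-!
# The tangent lemma

If a polynomial map `φ` kills an ideal `I` and every tangent vector at `P = φ(w₀)` of the scheme
defined by `I` is the differential of `φ` at `w₀` in some direction, then every polynomial `q`
which vanishes on the image of `φ` lies in `I` locally at `P`.
-/

open MvPolynomial

namespace Pool.Agent.H35.Hilb

section tangent
variable {k : Type*} [Field k] {σ : Type*}

/-- Values of a polynomial on a point over the dual numbers. -/
theorem aeval_dual [Fintype σ] (w ω : σ → k) (f : MvPolynomial σ k) :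
    aeval (dual w ω) f =
      TrivSqZeroExt.inl (eval w f) +
        TrivSqZeroExt.inr (∑ t, eval w (pderiv t f) * ω t) := by
  classical
  induction f using MvPolynomial.induction_on with
  | C a => simp [TrivSqZeroExt.algebraMap_eq_inl]
  | add p q hp hq =>
    rw [map_add, hp, hq]
    ext <;> simp [add_mul, Finset.sum_add_distrib]
  | mul_X p s hp =>
    rw [map_mul, hp, aeval_X]
    have h1 : ∑ t, eval w (pderiv t (p * X s)) * ω t =
        eval w p * ω s + w s * ∑ t, eval w (pderiv t p) * ω t := by
      have h2 : ∀ t, eval w (pderiv t (p * X s)) * ω t =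
          (if t = s then eval w p * ω s else 0) + w s * (eval w (pderiv t p) * ω t) := by
        intro t
        rw [pderiv_mul, pderiv_X, map_add, map_mul, map_mul, eval_X]
        by_cases h : t = s
        · subst h
          simp
          ring
        · rw [if_neg h, Pi.single_eq_of_ne (by simpa using fun h' => h h'.symm)]
          simp
          ring
      rw [Finset.sum_congr rfl fun t _ => h2 t, Finset.sum_add_distrib, Finset.mul_sum]
      simp
    rw [h1]
    unfold dual
    ext
    · simp
    · simp
      ring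

/-- First order Taylor expansion. -/
theorem taylor_mem [Fintype σ] (P : σ → k) (f : MvPolynomial σ k) :
    f - C (eval P f) - ∑ s, C (eval P (pderiv s f)) * (X s - C (P s)) ∈
      (RingHom.ker (eval P)) ^ 2 := by
  classical
  induction f using MvPolynomial.induction_on with
  | C a => simp
  | add p q hp hq =>
    convert Ideal.add_mem _ hp hq using 1
    simp only [map_add, add_mul, Finset.sum_add_distrib]
    ring
  | mul_X p s hp =>
    have h0 : p - C (eval P p) ∈ RingHom.ker (eval P) := by
      rw [RingHom.mem_ker]; simp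
    have h1 : (X s - C (P s) : MvPolynomial σ k) ∈ RingHom.ker (eval P) := by
      rw [RingHom.mem_ker]; simp
    have h2 : ∀ t, C (eval P (pderiv t (p * X s))) * (X t - C (P t)) =
        (if t = s then C (eval P p) * (X s - C (P s)) else 0) +
          C (P s) * (C (eval P (pderiv t p)) * (X t - C (P t))) := by
      intro t
      rw [pderiv_mul, pderiv_X, map_add, map_mul, map_mul, eval_X]
      by_cases h : t = s
      · subst h
        simp
        ring
      · rw [if_neg h, Pi.single_eq_of_ne (by simpa using fun h' => h h'.symm)]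
        simp
        ring
    rw [Finset.sum_congr rfl fun t _ => h2 t, Finset.sum_add_distrib, ← Finset.mul_sum]
    rw [Finset.sum_ite_eq' Finset.univ s, if_pos (Finset.mem_univ s), map_mul, eval_X, map_mul]
    have h3 : p * X s - C (eval P p) * C (P s) -
        (C (eval P p) * (X s - C (P s)) +
          C (P s) * ∑ t, C (eval P (pderiv t p)) * (X t - C (P t))) =
        (p - C (eval P p)) * (X s - C (P s)) +
          C (P s) * (p - C (eval P p) - ∑ t, C (eval P (pderiv t p)) * (X t - C (P t))) := by
      ring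
    rw [h3]
    refine Ideal.add_mem _ ?_ (Ideal.mul_mem_left _ _ hp)
    rw [pow_two]
    exact Ideal.mul_mem_mul h0 h1

/-- Two algebra endomorphisms which preserve the point `P` and agree on the coordinates modulo
`J + 𝔪²` agree on `𝔪ᴺ` modulo `J + 𝔪ᴺ⁺¹`. -/
theorem sub_mem_of_agree [Fintype σ] (P : σ → k) (J : Ideal (MvPolynomial σ k))
    (A B : MvPolynomial σ k →ₐ[k] MvPolynomial σ k)
    (hA : ∀ f, eval P (A f) = eval P f) (hB : ∀ f, eval P (B f) = eval P f)
    (h : ∀ s, A (X s - C (P s)) - B (X s - C (P s)) ∈ J ⊔ (RingHom.ker (eval P)) ^ 2)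
    (N : ℕ) (r : MvPolynomial σ k) (hr : r ∈ (RingHom.ker (eval P)) ^ N) :
    A r - B r ∈ J ⊔ (RingHom.ker (eval P)) ^ (N + 1) := by
  set m := RingHom.ker (eval P) with hm
  have hAm : ∀ f ∈ m, A f ∈ m := fun f hf => by
    rw [hm, RingHom.mem_ker] at hf ⊢
    rw [hA, hf]
  have hBm : ∀ f ∈ m, B f ∈ m := fun f hf => by
    rw [hm, RingHom.mem_ker] at hf ⊢
    rw [hB, hf]
  have hpow : ∀ (F : MvPolynomial σ k →ₐ[k] MvPolynomial σ k), (∀ f ∈ m, F f ∈ m) →
      ∀ N f, f ∈ m ^ N → F f ∈ m ^ N := by
    intro F hF N f hf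
    have h1 : Ideal.map (F : MvPolynomial σ k →+* MvPolynomial σ k) m ≤ m := by
      rw [Ideal.map_le_iff_le_comap]
      exact fun f hf => hF f hf
    have h2 := Ideal.mem_map_of_mem (F : MvPolynomial σ k →+* MvPolynomial σ k) hf
    rw [Ideal.map_pow] at h2
    exact Ideal.pow_right_mono h1 N h2
  -- the case `N = 1`
  have hone : ∀ b ∈ m, A b - B b ∈ J ⊔ m ^ 2 := by
    intro b hb
    have hb0 : eval P b = 0 := by simpa [hm, RingHom.mem_ker] using hb
    have ht := taylor_mem P b
    rw [← hm, hb0, map_zero, sub_zero] at ht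
    set e := b - ∑ s, C (eval P (pderiv s b)) * (X s - C (P s)) with he
    have hbe : b = (∑ s, C (eval P (pderiv s b)) * (X s - C (P s))) + e := by rw [he]; ring
    have hCA : ∀ c : k, A (C c) = C c := fun c => by
      rw [← MvPolynomial.algebraMap_eq]; exact A.commutes c
    have hCB : ∀ c : k, B (C c) = C c := fun c => by
      rw [← MvPolynomial.algebraMap_eq]; exact B.commutes c
    have hA1 : A b = (∑ s, C (eval P (pderiv s b)) * A (X s - C (P s))) + A e := by
      conv_lhs => rw [hbe]
      rw [map_add, map_sum]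
      simp only [map_mul, hCA]
    have hB1 : B b = (∑ s, C (eval P (pderiv s b)) * B (X s - C (P s))) + B e := by
      conv_lhs => rw [hbe]
      rw [map_add, map_sum]
      simp only [map_mul, hCB]
    have h3 : A b - B b = (∑ s, C (eval P (pderiv s b)) *
        (A (X s - C (P s)) - B (X s - C (P s)))) + (A e - B e) := by
      rw [hA1, hB1]
      simp only [mul_sub, Finset.sum_sub_distrib]
      ring
    rw [h3]
    refine Ideal.add_mem _ (Ideal.sum_mem _ fun s _ => Ideal.mul_mem_left _ _ (h s)) ?_
    exact Ideal.mem_sup_right (Ideal.sub_mem _ (hpow A hAm 2 e ht) (hpow B hBm 2 e ht))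
  induction N generalizing r with
  | zero =>
    refine Ideal.mem_sup_right ?_
    rw [zero_add, pow_one, hm, RingHom.mem_ker, map_sub, hA, hB, sub_self]
  | succ N ih =>
    rw [pow_succ] at hr
    refine Submodule.mul_induction_on hr ?_ ?_
    · intro a ha b hb
      have h4 : A (a * b) - B (a * b) = (A a - B a) * A b + B a * (A b - B b) := by
        rw [map_mul, map_mul]; ring
      rw [h4]
      refine Ideal.add_mem _ ?_ ?_
      · obtain ⟨j, hj, c, hc, hjc⟩ := Submodule.mem_sup.1 (ih a ha)
        rw [← hjc, add_mul]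
        refine Ideal.add_mem _ (Ideal.mem_sup_left (Ideal.mul_mem_right _ _ hj))
          (Ideal.mem_sup_right ?_)
        rw [pow_succ]
        exact Ideal.mul_mem_mul hc (hAm b hb)
      · obtain ⟨j, hj, c, hc, hjc⟩ := Submodule.mem_sup.1 (hone b hb)
        rw [← hjc, mul_add]
        refine Ideal.add_mem _ (Ideal.mem_sup_left (Ideal.mul_mem_left _ _ hj))
          (Ideal.mem_sup_right ?_)
        have := Ideal.mul_mem_mul (hpow B hBm N a ha) hc
        rwa [← pow_add] at this
    · intro x y hx hy
      have h5 : A (x + y) - B (x + y) = (A x - B x) + (A y - B y) := by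
        rw [map_add, map_add]; ring
      rw [h5]
      exact Ideal.add_mem _ hx hy

end tangent

/-- The linear algebra in the proof of the tangent lemma. -/
theorem exists_section {k V W : Type*} [Field k] [AddCommGroup V] [Module k V]
    [FiniteDimensional k V] [AddCommGroup W] [Module k W]
    (L : W →ₗ[k] V) (D : Submodule k (Module.Dual k V))
    (hT : D.dualCoannihilator ≤ LinearMap.range L) :
    ∃ L' : V →ₗ[k] W, ∀ ℓ : Module.Dual k V, ℓ - ℓ.comp (L.comp L') ∈ D := by
  set T := D.dualCoannihilator with hTdef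
  obtain ⟨g, hg⟩ := LinearMap.exists_leftInverse_of_injective T.subtype
    (LinearMap.ker_eq_bot.2 T.injective_subtype)
  obtain ⟨h, hh⟩ := LinearMap.exists_rightInverse_of_surjective L.rangeRestrict
    (LinearMap.range_rangeRestrict L)
  refine ⟨h.comp ((Submodule.inclusion hT).comp g), fun ℓ => ?_⟩
  have hL : ∀ v, L (h.comp ((Submodule.inclusion hT).comp g) v) = (g v : V) := by
    intro v
    have h1 := LinearMap.congr_fun hh (Submodule.inclusion hT (g v))
    have h2 := congrArg Subtype.val h1
    simpa using h2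
  have hD : D = T.dualAnnihilator := by
    rw [hTdef]; exact (Subspace.dualCoannihilator_dualAnnihilator_eq).symm
  rw [hD, Submodule.mem_dualAnnihilator]
  intro v hv
  have h3 := LinearMap.congr_fun hg ⟨v, hv⟩
  have h4 : (g v : V) = v := by simpa using congrArg Subtype.val h3
  simp only [LinearMap.sub_apply, LinearMap.comp_apply] 
  have h5 := hL v
  simp only [LinearMap.comp_apply] at h5
  rw [h5, h4, sub_self]

theorem tangent_lemma {k : Type*} [Field k] {σ τ : Type*} [Fintype σ] [Fintype τ]
    (I : Ideal (MvPolynomial σ k)) (φ : σ → MvPolynomial τ k) (w₀ : τ → k)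
    (hI : ∀ f ∈ I, aeval φ f = 0)
    (htan : ∀ δ : σ → k,
      (∀ f ∈ I, aeval (dual (fun s => eval w₀ (φ s)) δ) f = (0 : DualNumber k)) →
      ∃ ω : τ → k, ∀ s, aeval (dual w₀ ω) (φ s) = dual (fun s => eval w₀ (φ s)) δ s)
    (q : MvPolynomial σ k) (hq : aeval φ q = 0) :
    ∃ c : MvPolynomial σ k, eval (fun s => eval w₀ (φ s)) c ≠ 0 ∧ c * q ∈ I := by
  classical
  set P : σ → k := fun s => eval w₀ (φ s) with hP
  set m := RingHom.ker (eval P) with hm
  have hevalφ : ∀ f, eval w₀ (aeval φ f) = eval P f := by
    intro f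
    have : (eval w₀).comp (aeval φ : MvPolynomial σ k →ₐ[k] MvPolynomial τ k).toRingHom
        = eval P := by
      refine MvPolynomial.ringHom_ext (fun a => by simp) (fun s => by simp [hP])
    exact RingHom.congr_fun this f
  have hIP : ∀ f ∈ I, eval P f = 0 := fun f hf => by rw [← hevalφ, hI f hf, map_zero]
  -- the differential of `φ`
  let L : (τ → k) →ₗ[k] (σ → k) :=
    LinearMap.pi fun s => ∑ t, (eval w₀ (pderiv t (φ s))) • LinearMap.proj t
  have hLap : ∀ ω s, L ω s = ∑ t, eval w₀ (pderiv t (φ s)) * ω t := by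
    intro ω s
    simp [L]
  -- the linear parts of the polynomials
  let d : MvPolynomial σ k →ₗ[k] Module.Dual k (σ → k) :=
    { toFun := fun f => ∑ s, (eval P (pderiv s f)) • LinearMap.proj s
      map_add' := fun f g => by
        simp only [map_add, add_smul, Finset.sum_add_distrib]
      map_smul' := fun a f => by
        simp only [Derivation.map_smul, smul_eval, mul_smul, Finset.smul_sum, RingHom.id_apply] }
  have hdap : ∀ f δ, d f δ = ∑ s, eval P (pderiv s f) * δ s := by
    intro f δ
    simp [d]
  let D : Submodule k (Module.Dual k (σ → k)) := (I.restrictScalars k).map d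
  have hT : D.dualCoannihilator ≤ LinearMap.range L := by
    intro δ hδ
    rw [Submodule.mem_dualCoannihilator] at hδ
    obtain ⟨ω, hω⟩ := htan δ (fun f hf => by
      have h1 := hδ (d f) (Submodule.mem_map_of_mem hf)
      rw [hdap] at h1
      rw [aeval_dual, hIP f hf, h1]
      simp)
    refine ⟨ω, ?_⟩
    ext s
    rw [hLap]
    have h2 := hω s
    rw [aeval_dual] at h2
    unfold dual at h2
    have h3 := congrArg TrivSqZeroExt.snd h2
    simpa using h3
  obtain ⟨L', hL'⟩ := exists_section L D hT
  -- matrices of the linear maps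
  let lm : τ → σ → k := fun t s => L' (Pi.single s 1) t
  let pm : σ → σ → k := fun s s' => L (L' (Pi.single s' 1)) s
  have hpm : ∀ s s', pm s s' = ∑ t, eval w₀ (pderiv t (φ s)) * lm t s' := by
    intro s s'
    simp only [pm, lm]
    rw [hLap]
  let z : σ → MvPolynomial σ k := fun s => ∑ s', C (pm s s') * (X s' - C (P s'))
  let Θ : MvPolynomial σ k →ₐ[k] MvPolynomial σ k := aeval fun s => C (P s) + z s
  let Λ : MvPolynomial τ k →ₐ[k] MvPolynomial σ k :=
    aeval fun t => C (w₀ t) + ∑ s', C (lm t s') * (X s' - C (P s'))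
  have hzP : ∀ s, eval P (z s) = 0 := fun s => by simp [z]
  have hΘP : ∀ f, eval P (Θ f) = eval P f := by
    intro f
    have : (eval P).comp (Θ : MvPolynomial σ k →+* MvPolynomial σ k) = eval P := by
      refine MvPolynomial.ringHom_ext (fun a => by simp [Θ]) (fun s => by simp [Θ, hzP])
    exact RingHom.congr_fun this f
  have hΛP : ∀ f, eval P (Λ f) = eval w₀ f := by
    intro f
    have : (eval P).comp (Λ : MvPolynomial τ k →+* MvPolynomial σ k) = eval w₀ := by
      refine MvPolynomial.ringHom_ext (fun a => by simp [Λ]) (fun s => by simp [Λ])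
    exact RingHom.congr_fun this f
  have hΨP : ∀ f, eval P ((Λ.comp (aeval φ)) f) = eval P f := by
    intro f
    rw [AlgHom.comp_apply, hΛP, hevalφ]
  -- `id` and `Θ` agree modulo `I + m²`
  have hagree1 : ∀ s, (AlgHom.id k (MvPolynomial σ k)) (X s - C (P s)) - Θ (X s - C (P s)) ∈
      I ⊔ m ^ 2 := by
    intro s
    obtain ⟨f, hf, hdf⟩ := (Submodule.mem_map.1 (hL' (LinearMap.proj s)))
    have hco : ∀ s', eval P (pderiv s' f) = (if s' = s then 1 else 0) - pm s s' := by
      intro s'
      have h1 := LinearMap.congr_fun hdf (Pi.single s' 1)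
      rw [hdap] at h1
      simp only [LinearMap.sub_apply, LinearMap.comp_apply, LinearMap.proj_apply] at h1
      have h2 : ∑ x, eval P (pderiv x f) * (Pi.single s' (1 : k) : σ → k) x =
          eval P (pderiv s' f) := by
        rw [Finset.sum_eq_single s']
        · simp
        · intro b _ hb
          rw [Pi.single_eq_of_ne hb, mul_zero]
        · intro h; exact absurd (Finset.mem_univ _) h
      rw [h2] at h1
      rw [h1]
      congr 1
      by_cases h : s' = s
      · subst h; simp
      · rw [if_neg h, Pi.single_eq_of_ne (fun h' => h h'.symm)]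
    have ht := taylor_mem P f
    rw [← hm, hIP f hf, map_zero, sub_zero] at ht
    have hΘ : Θ (X s - C (P s)) = z s := by
      simp only [Θ, map_sub, aeval_X]
      rw [← MvPolynomial.algebraMap_eq, AlgHom.commutes, MvPolynomial.algebraMap_eq]
      ring
    have hsum : ∑ s', C (eval P (pderiv s' f)) * (X s' - C (P s')) =
        (X s - C (P s)) - z s := by
      simp only [hco, map_sub, sub_mul, Finset.sum_sub_distrib, z]
      congr 1
      rw [Finset.sum_eq_single s]
      · simp
      · intro b _ hb
        rw [if_neg hb]; simp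
      · intro h; exact absurd (Finset.mem_univ _) h
    rw [hsum] at ht
    rw [hΘ, AlgHom.id_apply]
    have h6 : (X s - C (P s)) - z s = f - (f - ((X s - C (P s)) - z s)) := by ring
    rw [h6]
    exact Ideal.sub_mem _ (Ideal.mem_sup_left hf) (Ideal.mem_sup_right ht)
  -- `Λ ∘ φ*` and `Θ` agree modulo `m²`
  have hagree2 : ∀ s, (Λ.comp (aeval φ)) (X s - C (P s)) - Θ (X s - C (P s)) ∈
      (⊥ : Ideal (MvPolynomial σ k)) ⊔ m ^ 2 := by
    intro s
    refine Ideal.mem_sup_right ?_
    have ht := taylor_mem w₀ (φ s)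
    have hΘ : Θ (X s - C (P s)) = z s := by
      simp only [Θ, map_sub, aeval_X]
      rw [← MvPolynomial.algebraMap_eq, AlgHom.commutes, MvPolynomial.algebraMap_eq]
      ring
    have hΨ : (Λ.comp (aeval φ)) (X s - C (P s)) = Λ (φ s) - C (P s) := by
      rw [map_sub, AlgHom.comp_apply, aeval_X]
      rw [← MvPolynomial.algebraMap_eq, AlgHom.commutes]
    have hmap : Ideal.map (Λ : MvPolynomial τ k →+* MvPolynomial σ k)
        (RingHom.ker (eval w₀)) ≤ m := by
      rw [Ideal.map_le_iff_le_comap]
      intro f hf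
      rw [RingHom.mem_ker] at hf
      change Λ f ∈ m
      rw [hm, RingHom.mem_ker, hΛP, hf]
    have hΛe := Ideal.mem_map_of_mem (Λ : MvPolynomial τ k →+* MvPolynomial σ k) ht
    rw [Ideal.map_pow] at hΛe
    have hΛe' := Ideal.pow_right_mono hmap 2 hΛe
    have hCΛ : ∀ c : k, Λ (C c) = C c := fun c => by
      rw [← MvPolynomial.algebraMap_eq]; exact Λ.commutes c
    have hX : ∀ t, Λ (X t - C (w₀ t)) = ∑ s', C (lm t s') * (X s' - C (P s')) := by
      intro t
      rw [map_sub, hCΛ]
      simp only [Λ, aeval_X]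
      ring
    have hval : (Λ : MvPolynomial τ k →+* MvPolynomial σ k)
        (φ s - C (eval w₀ (φ s)) - ∑ t, C (eval w₀ (pderiv t (φ s))) * (X t - C (w₀ t))) =
        Λ (φ s) - C (P s) - z s := by
      change Λ _ = _
      rw [map_sub, map_sub, map_sum, hCΛ]
      simp only [map_mul, hCΛ, hX]
      congr 1
      simp only [z, hpm, map_sum, Finset.mul_sum, Finset.sum_mul, map_mul]
      rw [Finset.sum_comm]
      refine Finset.sum_congr rfl fun s' _ => Finset.sum_congr rfl fun t _ => ?_
      ring
    rw [hval] at hΛe'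
    rw [hΨ, hΘ]
    exact hΛe'
  -- `q ∈ I + mᴺ` for all `N`
  have hmem : ∀ N, q ∈ I ⊔ m ^ N := by
    intro N
    induction N with
    | zero => simp
    | succ N ih =>
      obtain ⟨i, hi, r, hr, hir⟩ := Submodule.mem_sup.1 ih
      have hφr : aeval φ r = 0 := by
        have : r = q - i := by rw [← hir]; ring
        rw [this, map_sub, hq, hI i hi, sub_zero]
      have h1 := sub_mem_of_agree P I (AlgHom.id k _) Θ (fun f => rfl) hΘP hagree1 N r hr
      have h2 := sub_mem_of_agree P ⊥ (Λ.comp (aeval φ)) Θ hΨP hΘP hagree2 N r hr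
      rw [AlgHom.comp_apply, hφr, map_zero, zero_sub, bot_sup_eq] at h2
      have h3 : Θ r ∈ m ^ (N + 1) := by
        have := (m ^ (N + 1)).neg_mem h2
        rwa [neg_neg] at this
      rw [AlgHom.id_apply] at h1
      have h4 : q = i + ((r - Θ r) + Θ r) := by rw [← hir]; ring
      rw [h4]
      exact Ideal.add_mem _ (Ideal.mem_sup_left hi)
        (Ideal.add_mem _ h1 (Ideal.mem_sup_right h3))
  -- Krull's intersection theorem
  have hkrull := (Ideal.mem_iInf_smul_pow_eq_bot_iff m
    (Ideal.Quotient.mk I q : MvPolynomial σ k ⧸ I)).1 (by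
      rw [Submodule.mem_iInf]
      intro N
      obtain ⟨i, hi, r, hr, hir⟩ := Submodule.mem_sup.1 (hmem N)
      have h1 : (Ideal.Quotient.mk I q : MvPolynomial σ k ⧸ I) = r • 1 := by
        change Ideal.Quotient.mk I q = Ideal.Quotient.mk I (r * 1)
        rw [mul_one, Ideal.Quotient.eq, ← hir]
        simpa using hi
      rw [h1]
      exact Submodule.smul_mem_smul hr trivial)
  obtain ⟨r, hr⟩ := hkrull
  refine ⟨1 - (r : MvPolynomial σ k), ?_, ?_⟩
  · have h0 : eval P (r : MvPolynomial σ k) = 0 := (RingHom.mem_ker).1 r.2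
    rw [map_sub, map_one, h0]
    simp
  · have h1 : (Ideal.Quotient.mk I ((r : MvPolynomial σ k) * q) : MvPolynomial σ k ⧸ I) =
        Ideal.Quotient.mk I q := hr
    rw [Ideal.Quotient.eq] at h1
    have h2 : (1 - (r : MvPolynomial σ k)) * q = -((r : MvPolynomial σ k) * q - q) := by ring
    rw [h2]
    exact I.neg_mem h1

end Pool.Agent.H35.Hilb
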